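import Pool.Agent.U80.NP.Loc

/-!
# The local images: the full image at the neutral primes, and the primes of good reduction
-/

set_option autoImplicit false

namespace Pool.Agent.U80.NP

open Pool.Agent.Y695 (LocA)

section

variable {p : ℕ} [hp : Fact p.Prime]

/-- `z` is a square modulo `p` -/
def Rd (z : ℚ_[p]) : Prop := ∃ n : ℤ, ¬ (p : ℤ) ∣ n ∧ ‖z - n‖ < 1 ∧ IsSquare (n : ZMod p)

lemma exists_int {z : ℚ_[p]} (hz : ‖z‖ = 1) : ∃ n : ℤ, ¬ (p : ℤ) ∣ n ∧ ‖z - n‖ < 1 := by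
  set w : ℤ_[p] := ⟨z, hz.le⟩ with hw
  obtain ⟨n, hn⟩ := ZMod.intCast_surjective (PadicInt.toZMod w)
  have h1 : w - (n : ℤ_[p]) ∈ IsLocalRing.maximalIdeal ℤ_[p] := by
    rw [← PadicInt.ker_toZMod]
    show PadicInt.toZMod (w - (n : ℤ_[p])) = 0
    rw [map_sub, map_intCast, hn, sub_self]
  have h2 : ‖w - (n : ℤ_[p])‖ < 1 := by
    rw [IsLocalRing.mem_maximalIdeal] at h1
    exact PadicInt.mem_nonunits.1 h1
  have h3 : ‖z - n‖ < 1 := by
    have e : ‖w - (n : ℤ_[p])‖ = ‖z - (n : ℚ_[p])‖ := by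
      rw [PadicInt.norm_def]
      push_cast
      rfl
    rwa [e] at h2
  refine ⟨n, fun hdvd => ?_, h3⟩
  have h4 : ‖(n : ℚ_[p])‖ < 1 := Padic.norm_intCast_lt_one_iff.2 hdvd
  have h5 : ‖z‖ ≤ max ‖z - n‖ ‖(n : ℚ_[p])‖ := by
    have := Padic.nonarchimedean (z - (n : ℚ_[p])) (n : ℚ_[p])
    rwa [sub_add_cancel] at this
  have h6 := h5.trans_lt (max_lt h3 h4)
  rw [hz] at h6
  exact lt_irrefl _ h6

/-- two nonsquare units have a square as product -/
lemma unit_mul (h2 : p ≠ 2) {u v : ℚ_[p]} (hu : ‖u‖ = 1) (hv : ‖v‖ = 1) (h : ¬ IsSquare u) :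
    IsSquare v ∨ IsSquare (u * v) := by
  obtain ⟨m, hm, hum⟩ := exists_int hu
  obtain ⟨n, hn, hvn⟩ := exists_int hv
  have hu' : IsSquare u ↔ IsSquare (m : ℚ_[p]) := near h2 (by rw [norm_int hm]; exact hum)
  have hv' : IsSquare v ↔ IsSquare (n : ℚ_[p]) := near h2 (by rw [norm_int hn]; exact hvn)
  have huv : IsSquare (u * v) ↔ IsSquare ((m : ℚ_[p]) * n) := near h2 (by
    rw [norm_mul, norm_int hm, norm_int hn, one_mul]
    have e : u * v - m * n = (u - m) * v + m * (v - n) := by ring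
    rw [e]
    refine (Padic.nonarchimedean _ _).trans_lt (max_lt ?_ ?_)
    · rw [norm_mul, hv, mul_one]
      exact hum
    · rw [norm_mul, norm_int hm, one_mul]
      exact hvn)
  rw [hv', huv]
  apply sq_or h2 _ hn
  intro h3
  exact h (hu'.2 ((sq_int h2 hm).2 h3))

/-- an element of even valuation is a square up to a given nonsquare unit -/
lemma even_or (h2 : p ≠ 2) {u d : ℚ_[p]} (hu : ‖u‖ = 1) (h : ¬ IsSquare u) (hd : d ≠ 0)
    (hv : Even d.valuation) : IsSquare d ∨ IsSquare (u * d) := by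
  obtain ⟨k, hk⟩ := hv
  have hp0 : (p : ℚ_[p]) ≠ 0 := by exact_mod_cast hp.out.ne_zero
  set e : ℚ_[p] := d * ((p : ℚ_[p]) ^ (-k) * (p : ℚ_[p]) ^ (-k)) with he
  have hpk : (p : ℚ_[p]) ^ (-k) ≠ 0 := zpow_ne_zero _ hp0
  have he1 : ‖e‖ = 1 := by
    rw [he, norm_mul, norm_mul, Padic.norm_eq_zpow_neg_valuation hd, hk, Padic.norm_p_zpow]
    have hpr : (p : ℝ) ≠ 0 := by exact_mod_cast hp.out.ne_zero
    rw [← zpow_add₀ hpr, ← zpow_add₀ hpr]
    have : -(k + k) + (- -k + - -k) = (0 : ℤ) := by ring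
    rw [this, zpow_zero]
  have hpk2 : (p : ℚ_[p]) ^ (-k) * (p : ℚ_[p]) ^ (-k) ≠ 0 := mul_ne_zero hpk hpk
  rcases unit_mul h2 hu he1 h with h1 | h1
  · left
    rw [he, mul_comm] at h1
    exact sq_of_mul hpk2 ⟨_, rfl⟩ h1
  · right
    have e1 : u * e = ((p : ℚ_[p]) ^ (-k) * (p : ℚ_[p]) ^ (-k)) * (u * d) := by
      rw [he]; ring
    rw [e1] at h1
    exact sq_of_mul hpk2 ⟨_, rfl⟩ h1

/-- a nonsquare unit among the values of `x` suffices -/
lemma full_of (h2 : p ≠ 2) {a b : ℚ_[p]} (hb : b ≠ 0) (hv : Odd b.valuation) {X Y : ℚ_[p]}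
    (hX : ‖X‖ = 1) (hXs : ¬ IsSquare X) (hY : Y ^ 2 = X * (X ^ 2 + a * X + b)) {d : ℚ_[p]}
    (hd : d ≠ 0) : LocA ℚ_[p] a b d := by
  have hX0 : X ≠ 0 := (val_one_of hX).1
  have main : ∀ e : ℚ_[p], e ≠ 0 → Even e.valuation → LocA ℚ_[p] a b e := by
    intro e he hev
    rcases even_or h2 hX hXs he hev with h1 | h1
    · exact Or.inl h1
    · exact Or.inr (Or.inr ⟨X, Y, hX0, hY, h1⟩)
  rcases Int.even_or_odd d.valuation with h1 | h1
  · exact main d hd h1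
  · have h3 : Even (b * d).valuation := by
      rw [Padic.valuation_mul hb hd]
      exact hv.add_odd h1
    have h4 := add_two hb (main (b * d) (mul_ne_zero hb hd) h3)
    rcases h4 with h4 | h4 | ⟨X', Y', hX', hY', h4⟩
    · left
      have e : b * (b * d) = (b * b) * d := by ring
      rw [e] at h4
      exact sq_of_mul (mul_ne_zero hb hb) ⟨b, rfl⟩ h4
    · right; left
      have e : b * (b * (b * d)) = (b * b) * (b * d) := by ring
      rw [e] at h4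
      exact sq_of_mul (mul_ne_zero hb hb) ⟨b, rfl⟩ h4
    · right; right
      refine ⟨X', Y', hX', hY', ?_⟩
      have e : X' * (b * (b * d)) = (b * b) * (X' * d) := by ring
      rw [e] at h4
      exact sq_of_mul (mul_ne_zero hb hb) ⟨b, rfl⟩ h4

/-- a nonsquare modulo `p` after a nonzero square -/
lemma exists_w (h2 : p ≠ 2) : ∃ w : ℤ, ¬ (p : ℤ) ∣ w ∧ ¬ (p : ℤ) ∣ w - 1 ∧
    ¬ IsSquare (w : ZMod p) ∧ IsSquare ((w - 1 : ℤ) : ZMod p) := by
  classical
  have hex : ∃ n : ℕ, ¬ IsSquare (n : ZMod p) := by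
    obtain ⟨z, hz⟩ := FiniteField.exists_nonsquare (F := ZMod p) (by
      rw [ZMod.ringChar_zmod_n]
      exact h2)
    exact ⟨z.val, by rwa [ZMod.natCast_zmod_val]⟩
  have hmin : ∀ m : ℕ, m < Nat.find hex → ¬ ¬ IsSquare (m : ZMod p) :=
    fun m hm => Nat.find_min hex hm
  have hspec := Nat.find_spec hex
  set n := Nat.find hex with hn
  have h0 : n ≠ 0 := by
    intro h
    rw [h] at hspec
    exact hspec ⟨0, by simp⟩
  have h1 : n ≠ 1 := by
    intro h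
    rw [h] at hspec
    exact hspec ⟨1, by simp⟩
  have hsq : IsSquare (((n - 1 : ℕ)) : ZMod p) := by
    by_contra hcon
    exact hmin (n - 1) (show n - 1 < n by omega) hcon
  have hw : ¬ (p : ℤ) ∣ (n : ℤ) := by
    intro h
    have : ((n : ℕ) : ZMod p) = 0 := by
      have := (ZMod.intCast_zmod_eq_zero_iff_dvd (n : ℤ) p).2 h
      exact_mod_cast this
    rw [this] at hspec
    exact hspec ⟨0, by simp⟩
  refine ⟨n, hw, ?_, ?_, ?_⟩
  · intro h
    have h3 : (((n : ℤ) - 1 : ℤ) : ZMod p) = 0 := (ZMod.intCast_zmod_eq_zero_iff_dvd _ p).2 h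
    apply hspec
    refine ⟨1, ?_⟩
    push_cast at h3
    linear_combination h3
  · exact_mod_cast hspec
  · have : (((n : ℤ) - 1 : ℤ) : ZMod p) = ((n - 1 : ℕ) : ZMod p) := by
      rw [Nat.cast_sub (by omega)]
      push_cast
      ring
    rw [this]
    exact hsq

/-- the full local image: `p ∤ a`, `b` of odd valuation -/
lemma n2' (h2 : p ≠ 2) {a : ℤ} {b : ℚ_[p]} (ha : ¬ (p : ℤ) ∣ a) (hb : b ≠ 0) (hb1 : ‖b‖ < 1)
    (hv : Odd b.valuation) {d : ℚ_[p]} (hd : d ≠ 0) : LocA ℚ_[p] (a : ℚ_[p]) b d := by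
  have han := norm_int ha
  have h2n := norm_two h2
  have h20 : (2 : ℚ_[p]) ≠ 0 := two_ne_zero
  have hna : ¬ (p : ℤ) ∣ -a := fun h => ha ((dvd_neg).1 h)
  by_cases hs : IsSquare ((-a : ℤ) : ZMod p)
  · obtain ⟨w, hw, hw1, hws, hws1⟩ := exists_w h2
    have hX1 : ‖((-a * w : ℤ) : ℚ_[p])‖ = 1 := by
      push_cast
      rw [norm_mul, norm_neg, han, norm_int hw, one_mul]
    have hsa : IsSquare ((-a : ℤ) : ℚ_[p]) := (sq_int h2 hna).2 hs
    have ha0 : ((-a : ℤ) : ℚ_[p]) ≠ 0 := (val_one_of (norm_int hna)).1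
    have hXs : ¬ IsSquare ((-a * w : ℤ) : ℚ_[p]) := by
      intro h
      push_cast at h
      have h3 : IsSquare (w : ℚ_[p]) := by
        refine sq_of_mul ha0 hsa ?_
        push_cast
        exact h
      exact hws ((sq_int h2 hw).1 h3)
    -- the value is a square
    have hval : IsSquare (((-a * w : ℤ) : ℚ_[p]) * (((-a * w : ℤ) : ℚ_[p]) ^ 2 +
        (a : ℚ_[p]) * ((-a * w : ℤ) : ℚ_[p]) + b)) := by
      have h4 : ‖((-a * w : ℤ) : ℚ_[p]) * (((-a * w : ℤ) : ℚ_[p]) ^ 2 +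
        (a : ℚ_[p]) * ((-a * w : ℤ) : ℚ_[p]) + b) -
          ((-a * w : ℤ) : ℚ_[p]) ^ 2 * (((-a : ℤ) : ℚ_[p]) * ((w - 1 : ℤ) : ℚ_[p]))‖ <
          ‖((-a * w : ℤ) : ℚ_[p]) ^ 2 * (((-a : ℤ) : ℚ_[p]) * ((w - 1 : ℤ) : ℚ_[p]))‖ := by
        have e : ((-a * w : ℤ) : ℚ_[p]) * (((-a * w : ℤ) : ℚ_[p]) ^ 2 +
          (a : ℚ_[p]) * ((-a * w : ℤ) : ℚ_[p]) + b) -
          ((-a * w : ℤ) : ℚ_[p]) ^ 2 * (((-a : ℤ) : ℚ_[p]) * ((w - 1 : ℤ) : ℚ_[p])) =
          ((-a * w : ℤ) : ℚ_[p]) * b := by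
          push_cast
          ring
        rw [e, norm_mul, norm_mul, norm_mul, norm_pow, hX1, norm_int hna, norm_int hw1]
        norm_num
        exact hb1
      rw [near h2 h4]
      obtain ⟨r, hr⟩ := hsa
      obtain ⟨s, hs'⟩ := (sq_int h2 hw1).2 hws1
      exact ⟨((-a * w : ℤ) : ℚ_[p]) * r * s, by rw [hr, hs']; ring⟩
    obtain ⟨Y, hY⟩ := hval
    exact full_of h2 hb hv hX1 hXs (Y := Y) (by rw [hY]; ring) hd
  · -- a root
    have hsa : ¬ IsSquare ((-a : ℤ) : ℚ_[p]) := fun h => hs ((sq_int h2 hna).1 h)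
    have h3 : ‖((a : ℚ_[p]) ^ 2 - 4 * b) - (a : ℚ_[p]) ^ 2‖ < ‖(a : ℚ_[p]) ^ 2‖ := by
      have e : ((a : ℚ_[p]) ^ 2 - 4 * b) - (a : ℚ_[p]) ^ 2 = -(2 * 2 * b) := by ring
      rw [e, norm_neg, norm_mul, norm_mul, h2n, norm_pow, han]
      norm_num
      exact hb1
    obtain ⟨-, s, hs0, he⟩ := near_eq h2 h3
    set r1 : ℚ_[p] := (-(a : ℚ_[p]) + a * s) / 2 with hr1
    set r2 : ℚ_[p] := (-(a : ℚ_[p]) - a * s) / 2 with hr2
    have hsum : r1 + r2 = -(a : ℚ_[p]) := by rw [hr1, hr2]; ring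
    have hprod : r1 * r2 = b := by
      have h40 : (4 : ℚ_[p]) ≠ 0 := by
        have : (4 : ℚ_[p]) = 2 * 2 := by norm_num
        rw [this]
        exact mul_ne_zero h20 h20
      have e1 : r1 * r2 = ((a : ℚ_[p]) ^ 2 - (a : ℚ_[p]) ^ 2 * (s * s)) / 4 := by
        rw [hr1, hr2]; ring
      rw [e1, ← he]
      field_simp
      ring
    have main : ∀ x y : ℚ_[p], x + y = -(a : ℚ_[p]) → x * y = b → ‖x‖ = 1 →
        LocA ℚ_[p] (a : ℚ_[p]) b d := by
      intro x y hxy hxy2 hx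
      have hy : ‖y‖ < 1 := by
        have h4 : ‖x * y‖ < 1 := by rw [hxy2]; exact hb1
        rwa [norm_mul, hx, one_mul] at h4
      have hxs : ¬ IsSquare x := by
        have h4 : IsSquare x ↔ IsSquare ((-a : ℤ) : ℚ_[p]) := near h2 (by
          rw [norm_int hna]
          have e : x - ((-a : ℤ) : ℚ_[p]) = -y := by
            push_cast
            linear_combination hxy
          rw [e, norm_neg]
          exact hy)
        rw [h4]
        exact hsa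
      refine full_of h2 hb hv hx hxs (Y := 0) ?_ hd
      have e1 : y = -(a : ℚ_[p]) - x := by linear_combination hxy
      rw [← hxy2, e1]
      ring
    have hle : ∀ x y : ℚ_[p], x + y = -(a : ℚ_[p]) → x * y = b → ‖x‖ ≤ 1 := by
      intro x y hxy hxy2
      by_contra hcon
      push Not at hcon
      have h5 : ‖y‖ = ‖x‖ := by
        have e : y = -x + -(a : ℚ_[p]) := by linear_combination hxy
        rw [e, Padic.add_eq_max_of_ne (by rw [norm_neg, norm_neg, han]; exact hcon.ne'),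
          norm_neg, norm_neg, han]
        exact max_eq_left hcon.le
      have h6 : ‖x * y‖ < 1 := by rw [hxy2]; exact hb1
      rw [norm_mul, h5] at h6
      nlinarith
    have h1 := hle r1 r2 hsum hprod
    have h2' := hle r2 r1 (by rw [add_comm]; exact hsum) (by rw [mul_comm]; exact hprod)
    rcases h1.lt_or_eq with h4 | h4
    · have h5 : ‖r2‖ = 1 := by
        by_contra hcon
        have h6 : ‖r2‖ < 1 := lt_of_le_of_ne h2' hcon
        have h7 := (Padic.nonarchimedean r1 r2).trans_lt (max_lt h4 h6)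
        rw [hsum, norm_neg, han] at h7
        exact lt_irrefl _ h7
      exact main r2 r1 (by rw [add_comm]; exact hsum) (by rw [mul_comm]; exact hprod) h5
    · exact main r1 r2 hsum hprod h4

/-- the primes of good reduction -/
lemma good (h2 : p ≠ 2) {a b d : ℤ} (hb : ¬ (p : ℤ) ∣ b) (hc : ¬ (p : ℤ) ∣ a ^ 2 - 4 * b)
    (hd : ¬ (p : ℤ) ∣ d) : LocA ℚ_[p] (a : ℚ_[p]) (b : ℚ_[p]) (d : ℚ_[p]) := by
  by_cases hds : IsSquare (d : ZMod p)
  · exact Or.inl ((sq_int h2 hd).2 hds)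
  by_cases hbs : IsSquare (b : ZMod p)
  swap
  · rcases sq_or h2 hbs hd with h | h
    · exact Or.inl h
    · exact Or.inr (Or.inl h)
  have hd0 : d ≠ 0 := by
    rintro rfl
    exact hd (dvd_zero _)
  have hbz : (b : ZMod p) ≠ 0 := fun h => hb ((ZMod.intCast_zmod_eq_zero_iff_dvd _ _).1 h)
  have h4z : (4 : ZMod p) ≠ 0 := by
    intro h
    apply not_dvd_four h2
    rw [← ZMod.intCast_zmod_eq_zero_iff_dvd]
    push_cast
    exact h
  have hcz : ((a ^ 2 - 4 * b : ℤ) : ZMod p) ≠ 0 :=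
    fun h => hc ((ZMod.intCast_zmod_eq_zero_iff_dvd _ _).1 h)
  have h := Pool.Agent.Y587.SG.aux p (-2 * a) (a ^ 2 - 4 * b) d h2 hcz (by
    have e : (((-2 * a : ℤ)) : ZMod p) ^ 2 - 4 * ((a ^ 2 - 4 * b : ℤ) : ZMod p) =
        (4 : ZMod p) ^ 2 * (b : ZMod p) := by
      push_cast
      ring
    rw [e, quadraticChar_one_iff_isSquare (mul_ne_zero (pow_ne_zero 2 h4z) hbz)]
    obtain ⟨y, hy⟩ := hbs
    exact ⟨4 * y, by rw [hy]; ring⟩) hd0 (quadraticChar_neg_one_iff_not_isSquare.2 hds)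
  obtain ⟨X, Y, r, hX, hY, hr⟩ := h
  have h20 : (2 : ℚ_[p]) ≠ 0 := two_ne_zero
  rw [← scale h20]
  right; right
  refine ⟨X, Y, hX, ?_, ?_⟩
  · rw [hY]
    push_cast
    ring
  · rw [hr]
    exact ⟨(d : ℚ_[p]) * r, by ring⟩

end

end Pool.Agent.U80.NP
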