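import Pool.Agent.U80.NP.Inv

/-!
# The tower primes: there are infinitely many exactly when there are suitable neutral primes
-/

set_option autoImplicit false

namespace Pool.Agent.U80.NP

open Finset

/-- the neutral primes which divide `b` and `a² - 4b` exactly once -/
def N1 (a b : ℤ) (p : ℕ) : Prop := p.Prime ∧ p ≠ 2 ∧ (p : ℤ) ∣ a ∧ (p : ℤ) ∣ b ∧ ¬ (p : ℤ) ^ 2 ∣ b

/-- the neutral primes which divide `b` and not `a` -/
def N2 (a b : ℤ) (p : ℕ) : Prop := p.Prime ∧ p ≠ 2 ∧ ¬ (p : ℤ) ∣ a ∧ Odd (padicValInt p b)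

lemma exists_cop (m : ℕ) (hm : 0 < m) {p₁ p₂ : ℕ} (h1 : p₁.Prime) (h2 : p₂.Prime) (h12 : p₁ ≠ 2)
    (h22 : p₂ ≠ 2) (hc1 : m.Coprime p₁) (hc2 : m.Coprime p₂) :
    {q : ℕ | q.Prime ∧ q ≡ 1 [MOD m] ∧ ¬ IsSquare (q : ZMod p₁) ∧
      ¬ IsSquare (q : ZMod p₂)}.Infinite := by
  haveI : Fact p₁.Prime := ⟨h1⟩
  haveI : Fact p₂.Prime := ⟨h2⟩
  obtain ⟨n₁, hn₁⟩ := FiniteField.exists_nonsquare (F := ZMod p₁) (by
    rw [ZMod.ringChar_zmod_n]; exact h12)
  obtain ⟨n₂, hn₂⟩ := FiniteField.exists_nonsquare (F := ZMod p₂) (by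
    rw [ZMod.ringChar_zmod_n]; exact h22)
  -- a modulus and a unit class
  obtain ⟨N, x, hN, hx, hx1, hx2⟩ : ∃ N x : ℕ, 0 < N ∧ x.Coprime N ∧
      (∀ q : ℕ, q ≡ x [MOD N] → q ≡ 1 [MOD m]) ∧
      (∀ q : ℕ, q ≡ x [MOD N] → ¬ IsSquare (q : ZMod p₁) ∧ ¬ IsSquare (q : ZMod p₂)) := by
    by_cases hpp : p₁ = p₂
    · subst hpp
      obtain ⟨x, hx1, hx2⟩ := Nat.chineseRemainder hc1 1 n₁.val
      refine ⟨m * p₁, x, Nat.mul_pos hm h1.pos, ?_, fun q hq => ?_, fun q hq => ?_⟩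
      · refine Nat.Coprime.mul_right ?_ ?_
        · have := hx1.gcd_eq
          rw [Nat.gcd_one_left] at this
          exact this
        · rw [Nat.coprime_comm, Nat.Prime.coprime_iff_not_dvd h1]
          intro h
          apply hn₁
          have h3 := (ZMod.natCast_eq_natCast_iff _ _ _).2 hx2
          rw [(ZMod.natCast_eq_zero_iff _ _).2 h, ZMod.natCast_zmod_val] at h3
          rw [← h3]
          exact ⟨0, by ring⟩
      · exact (hq.of_mul_right _).trans hx1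
      · have h4 := (hq.of_mul_left _).trans hx2
        have h3 := (ZMod.natCast_eq_natCast_iff _ _ _).2 h4
        rw [ZMod.natCast_zmod_val] at h3
        rw [h3]
        exact ⟨hn₁, hn₁⟩
    · have hcp : (m * p₁).Coprime p₂ :=
        Nat.Coprime.mul_left hc2 ((Nat.coprime_primes h1 h2).2 hpp)
      obtain ⟨y, hy1, hy2⟩ := Nat.chineseRemainder hc1 1 n₁.val
      obtain ⟨x, hx1, hx2⟩ := Nat.chineseRemainder hcp y n₂.val
      have hx3 : x ≡ 1 [MOD m] := (hx1.of_mul_right _).trans hy1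
      have hx4 : x ≡ n₁.val [MOD p₁] := (hx1.of_mul_left _).trans hy2
      refine ⟨m * p₁ * p₂, x, Nat.mul_pos (Nat.mul_pos hm h1.pos) h2.pos, ?_, fun q hq => ?_,
        fun q hq => ⟨?_, ?_⟩⟩
      · refine Nat.Coprime.mul_right (Nat.Coprime.mul_right ?_ ?_) ?_
        · have := hx3.gcd_eq
          rw [Nat.gcd_one_left] at this
          exact this
        · rw [Nat.coprime_comm, Nat.Prime.coprime_iff_not_dvd h1]
          intro h
          apply hn₁
          have h3 := (ZMod.natCast_eq_natCast_iff _ _ _).2 hx4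
          rw [(ZMod.natCast_eq_zero_iff _ _).2 h, ZMod.natCast_zmod_val] at h3
          rw [← h3]
          exact ⟨0, by ring⟩
        · rw [Nat.coprime_comm, Nat.Prime.coprime_iff_not_dvd h2]
          intro h
          apply hn₂
          have h3 := (ZMod.natCast_eq_natCast_iff _ _ _).2 hx2
          rw [(ZMod.natCast_eq_zero_iff _ _).2 h, ZMod.natCast_zmod_val] at h3
          rw [← h3]
          exact ⟨0, by ring⟩
      · exact ((hq.of_mul_right _).of_mul_right _).trans hx3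
      · have h4 := ((hq.of_mul_right _).of_mul_left _).trans hx4
        have h3 := (ZMod.natCast_eq_natCast_iff _ _ _).2 h4
        rw [ZMod.natCast_zmod_val] at h3
        rw [h3]
        exact hn₁
      · have h4 := (hq.of_mul_left _).trans hx2
        have h3 := (ZMod.natCast_eq_natCast_iff _ _ _).2 h4
        rw [ZMod.natCast_zmod_val] at h3
        rw [h3]
        exact hn₂
  haveI : NeZero N := ⟨hN.ne'⟩
  have hu : IsUnit (x : ZMod N) := (ZMod.isUnit_iff_coprime _ _).2 hx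
  refine (Nat.infinite_setOfPred_prime_and_eq_mod hu).mono ?_
  rintro q ⟨hq, hq1⟩
  have h5 := (ZMod.natCast_eq_natCast_iff _ _ _).1 hq1
  exact ⟨hq, hx1 q h5, hx2 q h5⟩

/-- a number with an odd power of one prime -/
lemma nsq {q p k : ℕ} {n n' : ℤ} [hq : Fact q.Prime] [hp : Fact p.Prime] (hp2 : p ≠ 2)
    (hn : n = (p : ℤ) ^ k * n') (hn' : n' ≠ 0) (hk : Odd k) (hqn : q ≡ 1 [MOD 8 * n'.natAbs])
    (hqp : ¬ IsSquare (q : ZMod p)) : ¬ IsSquare (n : ZMod q) := by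
  have h8 : q % 8 = 1 := by
    have := hqn.of_mul_right _
    exact this
  have hq2 : q ≠ 2 := by rintro rfl; omega
  have hpq : p ≠ q := by
    rintro rfl
    apply hqp
    rw [ZMod.natCast_self]
    exact ⟨0, by ring⟩
  -- the part prime to `p`
  have h1 : jacobiSym n' q = 1 := by
    have hodd : Odd q := (hq.out.odd_of_ne_two hq2)
    rw [jacobiSym.mod_right n' hodd]
    have h2 : q % (4 * n'.natAbs) = 1 % (4 * n'.natAbs) := by
      have h3 : q ≡ 1 [MOD 4 * n'.natAbs] := hqn.of_dvd ⟨2, by ring⟩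
      exact h3
    rw [h2, ← jacobiSym.mod_right n' odd_one]
    exact jacobiSym.one_right _
  have h3 : legendreSym q (p : ℤ) = -1 := by
    have h4 : legendreSym p (q : ℤ) = -1 := by
      rw [legendreSym.eq_neg_one_iff]
      exact_mod_cast hqp
    rw [legendreSym.quadratic_reciprocity_one_mod_four (p := q) (q := p) (by omega) hp2] at h4
    exact h4
  have h5 : legendreSym q n = -1 := by
    rw [← jacobiSym.legendreSym.to_jacobiSym] at h1
    rw [hn, legendreSym.mul, h1, mul_one]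
    have h6 : legendreSym q ((p : ℤ) ^ k) = (legendreSym q p) ^ k := by
      exact map_pow (legendreSym.hom q) (p : ℤ) k
    rw [h6, h3, hk.neg_one_pow]
  rw [legendreSym.eq_neg_one_iff] at h5
  exact h5

lemma split_off {p : ℕ} (hp : p.Prime) {n : ℤ} (hn : n ≠ 0) :
    ∃ n' : ℤ, n = (p : ℤ) ^ (padicValInt p n) * n' ∧ n' ≠ 0 ∧ ¬ (p : ℤ) ∣ n' := by
  haveI : Fact p.Prime := ⟨hp⟩
  obtain ⟨n', h⟩ := padicValInt_dvd (p := p) n
  refine ⟨n', h, ?_, ?_⟩
  · rintro rfl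
    rw [mul_zero] at h
    exact hn h
  · rintro ⟨m, rfl⟩
    have h1 : (p : ℤ) ^ (padicValInt p n + 1) ∣ n := ⟨m, by
      conv_lhs => rw [h]
      ring⟩
    rw [padicValInt_dvd_iff] at h1
    rcases h1 with h1 | h1
    · exact hn h1
    · omega

/-- membership in the set of the tower primes -/
lemma tw_of {a b : ℤ} {q p₁ p₂ : ℕ} (hb : b ≠ 0) (hc : a ^ 2 - 4 * b ≠ 0) (hq : q.Prime)
    (h1 : p₁.Prime) (h2 : p₂.Prime) (h12 : p₁ ≠ 2) (h22 : p₂ ≠ 2)
    (hN1 : Neutral a b p₁) (hN2 : Neutral a b p₂) {b' c' : ℤ} {k l : ℕ}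
    (hb' : b = (p₁ : ℤ) ^ k * b') (hc' : a ^ 2 - 4 * b = (p₂ : ℤ) ^ l * c') (hk : Odd k)
    (hl : Odd l) (hqm : q ≡ 1 [MOD 8 * (b' * c').natAbs]) (hq1 : ¬ IsSquare (q : ZMod p₁))
    (hq2 : ¬ IsSquare (q : ZMod p₂)) : Tw a b q := by
  haveI : Fact q.Prime := ⟨hq⟩
  haveI : Fact p₁.Prime := ⟨h1⟩
  haveI : Fact p₂.Prime := ⟨h2⟩
  have hb0 : b' ≠ 0 := by
    rintro rfl
    rw [mul_zero] at hb'
    exact hb hb'
  have hc0 : c' ≠ 0 := by
    rintro rfl
    rw [mul_zero] at hc'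
    exact hc hc'
  refine ⟨hq, ?_, ?_, ?_, ?_⟩
  · have := hqm.of_mul_right _
    exact this
  · refine nsq h12 hb' hb0 hk (hqm.of_dvd ?_) hq1
    rw [Int.natAbs_mul]
    exact mul_dvd_mul_left 8 (dvd_mul_right _ _)
  · refine nsq h22 hc' hc0 hl (hqm.of_dvd ?_) hq2
    rw [Int.natAbs_mul]
    exact mul_dvd_mul_left 8 (dvd_mul_left _ _)
  · intro p hp hp2 hpd
    by_cases e1 : p = p₁
    · subst e1; exact Or.inl hN1
    by_cases e2 : p = p₂
    · subst e2; exact Or.inl hN2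
    right
    have hpZ := Nat.prime_iff_prime_int.1 hp
    have h3 : (p : ℤ) ∣ b' * c' := by
      rcases hpZ.dvd_mul.1 hpd with h | h
      · rw [hb'] at h
        rcases hpZ.dvd_mul.1 h with h4 | h4
        · exfalso
          have h5 := hpZ.dvd_of_dvd_pow h4
          have h6 : p ∣ p₁ := by exact_mod_cast h5
          exact e1 ((Nat.prime_dvd_prime_iff_eq hp h1).1 h6)
        · exact dvd_mul_of_dvd_left h4 _
      · rw [hc'] at h
        rcases hpZ.dvd_mul.1 h with h4 | h4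
        · exfalso
          have h5 := hpZ.dvd_of_dvd_pow h4
          have h6 : p ∣ p₂ := by exact_mod_cast h5
          exact e2 ((Nat.prime_dvd_prime_iff_eq hp h2).1 h6)
        · exact dvd_mul_of_dvd_right h4 _
    have h4 : q ≡ 1 [MOD p] := hqm.of_dvd (dvd_mul_of_dvd_right (Int.natCast_dvd.1 h3) _)
    have h5 := (ZMod.natCast_eq_natCast_iff _ _ _).2 h4
    rw [h5]
    exact ⟨1, by simp⟩

theorem inf_one {a b : ℤ} (hb : b ≠ 0) (hc : a ^ 2 - 4 * b ≠ 0) {p : ℕ} (h : N1 a b p) :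
    {q | Tw a b q}.Infinite := by
  obtain ⟨hp, hp2, h3, h4, h5⟩ := h
  haveI : Fact p.Prime := ⟨hp⟩
  have hpZ := Nat.prime_iff_prime_int.1 hp
  have hN : Neutral a b p := Or.inl ⟨h3, h4, h5⟩
  have hp4 : ¬ (p : ℤ) ∣ 4 := by
    intro h
    have h1 : p ∣ 2 ^ 2 := by
      have : p ∣ 4 := by exact_mod_cast h
      norm_num; exact this
    exact hp2 ((Nat.prime_dvd_prime_iff_eq hp Nat.prime_two).1 (hp.dvd_of_dvd_pow h1))
  obtain ⟨b', hb'⟩ := h4
  have hb0 : b' ≠ 0 := by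
    rintro rfl
    rw [mul_zero] at hb'
    exact hb hb'
  have hpb' : ¬ (p : ℤ) ∣ b' := by
    rintro ⟨m, rfl⟩
    exact h5 ⟨m, by rw [hb']; ring⟩
  obtain ⟨a', ha'⟩ := h3
  have hc' : a ^ 2 - 4 * b = (p : ℤ) ^ 1 * (p * a' ^ 2 - 4 * b') := by
    rw [ha', hb']; ring
  have hpc' : ¬ (p : ℤ) ∣ (p * a' ^ 2 - 4 * b') := by
    intro h
    have h6 : (p : ℤ) ∣ 4 * b' := by
      have := dvd_sub (dvd_mul_right (p : ℤ) (a' ^ 2)) h
      rwa [sub_sub_cancel] at this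
    exact (hpZ.dvd_mul.1 h6).elim hp4 hpb'
  have hc0 : (p * a' ^ 2 - 4 * b' : ℤ) ≠ 0 := by
    intro h
    rw [h, mul_zero] at hc'
    exact hc hc'
  have hpos : 0 < 8 * (b' * (p * a' ^ 2 - 4 * b')).natAbs :=
    Nat.mul_pos (by norm_num) (Int.natAbs_pos.2 (mul_ne_zero hb0 hc0))
  have hcop : (8 * (b' * (p * a' ^ 2 - 4 * b')).natAbs).Coprime p := by
    rw [Nat.coprime_comm, Nat.Prime.coprime_iff_not_dvd hp]
    intro h
    rcases hp.dvd_mul.1 h with h6 | h6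
    · have : p ∣ 2 ^ 3 := by norm_num; exact h6
      exact hp2 ((Nat.prime_dvd_prime_iff_eq hp Nat.prime_two).1 (hp.dvd_of_dvd_pow this))
    · rcases hpZ.dvd_mul.1 (Int.natCast_dvd.2 h6) with h7 | h7
      · exact hpb' h7
      · exact hpc' h7
  refine (exists_cop _ hpos hp hp hp2 hp2 hcop hcop).mono ?_
  rintro q ⟨hq, hq1, hq2, hq3⟩
  exact tw_of hb hc hq hp hp hp2 hp2 hN hN (k := 1) (l := 1) (by rw [pow_one]; exact hb') hc' odd_one odd_one
    hq1 hq2 hq3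

theorem inf_two {a b : ℤ} (hb : b ≠ 0) (hc : a ^ 2 - 4 * b ≠ 0) {p₁ p₂ : ℕ} (h1 : N2 a b p₁)
    (h2 : p₂.Prime ∧ p₂ ≠ 2 ∧ ¬ (p₂ : ℤ) ∣ a ∧ Odd (padicValInt p₂ (a ^ 2 - 4 * b))) :
    {q | Tw a b q}.Infinite := by
  obtain ⟨hp1, hp12, h13, h14⟩ := h1
  obtain ⟨hp2, hp22, h23, h24⟩ := h2
  haveI : Fact p₁.Prime := ⟨hp1⟩
  haveI : Fact p₂.Prime := ⟨hp2⟩
  have hZ1 := Nat.prime_iff_prime_int.1 hp1
  have hZ2 := Nat.prime_iff_prime_int.1 hp2
  have hn4 : ∀ {p : ℕ}, p.Prime → p ≠ 2 → ¬ (p : ℤ) ∣ 4 := by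
    intro p hp hp2 h
    have h1 : p ∣ 2 ^ 2 := by
      have : p ∣ 4 := by exact_mod_cast h
      norm_num; exact this
    exact hp2 ((Nat.prime_dvd_prime_iff_eq hp Nat.prime_two).1 (hp.dvd_of_dvd_pow h1))
  have hd1 : (p₁ : ℤ) ∣ b := by
    by_contra h
    rw [padicValInt.eq_zero_of_not_dvd h] at h14
    exact absurd h14 (by decide)
  have hd2 : (p₂ : ℤ) ∣ a ^ 2 - 4 * b := by
    by_contra h
    rw [padicValInt.eq_zero_of_not_dvd h] at h24
    exact absurd h24 (by decide)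
  have hd1c : ¬ (p₁ : ℤ) ∣ a ^ 2 - 4 * b := by
    intro h
    have := dvd_add h (dvd_mul_of_dvd_right hd1 4)
    rw [sub_add_cancel] at this
    exact h13 (hZ1.dvd_of_dvd_pow this)
  have hd2b : ¬ (p₂ : ℤ) ∣ b := by
    intro h
    have := dvd_add hd2 (dvd_mul_of_dvd_right h 4)
    rw [sub_add_cancel] at this
    exact h23 (hZ2.dvd_of_dvd_pow this)
  obtain ⟨b', hb', hb0, hb1⟩ := split_off hp1 hb
  obtain ⟨c', hc', hc0, hc1⟩ := split_off hp2 hc
  have hN1 : Neutral a b p₁ := Or.inr ⟨h13, by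
    rw [padicValInt.mul hb hc, padicValInt.eq_zero_of_not_dvd hd1c, add_zero]
    exact h14⟩
  have hN2 : Neutral a b p₂ := Or.inr ⟨h23, by
    rw [padicValInt.mul hb hc, padicValInt.eq_zero_of_not_dvd hd2b, zero_add]
    exact h24⟩
  have hpos : 0 < 8 * (b' * c').natAbs :=
    Nat.mul_pos (by norm_num) (Int.natAbs_pos.2 (mul_ne_zero hb0 hc0))
  have hn8 : ∀ {p : ℕ}, p.Prime → p ≠ 2 → ¬ p ∣ 8 := by
    intro p hp hp2 h
    have : p ∣ 2 ^ 3 := by norm_num; exact h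
    exact hp2 ((Nat.prime_dvd_prime_iff_eq hp Nat.prime_two).1 (hp.dvd_of_dvd_pow this))
  have hcop1 : (8 * (b' * c').natAbs).Coprime p₁ := by
    rw [Nat.coprime_comm, Nat.Prime.coprime_iff_not_dvd hp1]
    intro h
    rcases hp1.dvd_mul.1 h with h6 | h6
    · exact hn8 hp1 hp12 h6
    · rcases hZ1.dvd_mul.1 (Int.natCast_dvd.2 h6) with h7 | h7
      · exact hb1 h7
      · exact hd1c (by rw [hc']; exact dvd_mul_of_dvd_right h7 _)
  have hcop2 : (8 * (b' * c').natAbs).Coprime p₂ := by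
    rw [Nat.coprime_comm, Nat.Prime.coprime_iff_not_dvd hp2]
    intro h
    rcases hp2.dvd_mul.1 h with h6 | h6
    · exact hn8 hp2 hp22 h6
    · rcases hZ2.dvd_mul.1 (Int.natCast_dvd.2 h6) with h7 | h7
      · exact hd2b (by rw [hb']; exact dvd_mul_of_dvd_right h7 _)
      · exact hc1 h7
  refine (exists_cop _ hpos hp1 hp2 hp12 hp22 hcop1 hcop2).mono ?_
  rintro q ⟨hq, hq1, hq2, hq3⟩
  exact tw_of hb hc hq hp1 hp2 hp12 hp22 hN1 hN2 hb' hc' h14 h24 hq1 hq2 hq3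

/-- a nonsquare has a prime factor of odd exponent that is a nonsquare -/
lemma exists_odd {q : ℕ} [hq : Fact q.Prime] (h8 : q % 8 = 1) {n : ℤ} (hn : n ≠ 0)
    (h : ¬ IsSquare (n : ZMod q)) : ∃ p : ℕ, p.Prime ∧ p ≠ 2 ∧ Odd (padicValInt p n) ∧
      ¬ IsSquare (q : ZMod p) := by
  classical
  by_contra hcon
  push_neg at hcon
  apply h
  have hq2 : q ≠ 2 := by rintro rfl; omega
  have hm1 : IsSquare ((-1 : ℤ) : ZMod q) := by
    have := ZMod.exists_sq_eq_neg_one_iff (p := q)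
    push_cast
    exact this.2 (by omega)
  have hab : IsSquare ((n.natAbs : ℕ) : ZMod q) := by
    conv =>
      arg 1
      rw [← Nat.prod_factorization_pow_eq_self (Int.natAbs_ne_zero.2 hn)]
    rw [Finsupp.prod, Nat.cast_prod]
    have key : ∀ p ∈ n.natAbs.factorization.support,
        IsSquare (((p ^ n.natAbs.factorization p : ℕ)) : ZMod q) := by
      intro p hp
      have hpp : p.Prime := Nat.prime_of_mem_primeFactors (by
        rwa [Nat.support_factorization] at hp)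
      rcases Nat.even_or_odd (n.natAbs.factorization p) with h1 | h1
      · obtain ⟨k, hk⟩ := h1
        exact ⟨(p : ZMod q) ^ k, by push_cast; rw [hk, pow_add]⟩
      · by_cases hp2 : p = 2
        · subst hp2
          have h2 : IsSquare (2 : ZMod q) := (ZMod.exists_sq_eq_two_iff hq2).2 (Or.inl h8)
          push_cast
          exact h2.pow _
        haveI : Fact p.Prime := ⟨hpp⟩
        have h3 : IsSquare (q : ZMod p) := hcon p hpp hp2 (by
          unfold padicValInt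
          rw [← Nat.factorization_def _ hpp]
          exact h1)
        have h4 : IsSquare (p : ZMod q) := by
          rw [ZMod.exists_sq_eq_prime_iff_of_mod_four_eq_one (p := q) (q := p) (by omega) hp2]
          exact h3
        push_cast
        exact h4.pow _
    generalize n.natAbs.factorization.support = s at key
    induction s using Finset.induction_on with
    | empty => exact ⟨1, by simp⟩
    | insert p s hps ih =>
      rw [Finset.prod_insert hps]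
      exact (key p (Finset.mem_insert_self _ _)).mul
        (ih fun r hr => key r (Finset.mem_insert_of_mem hr))
  rcases Int.natAbs_eq n with h1 | h1
  · rw [h1, Int.cast_natCast]
    exact hab
  · rw [h1]
    have e : ((-(n.natAbs : ℤ) : ℤ) : ZMod q) = ((-1 : ℤ) : ZMod q) * ((n.natAbs : ℕ) : ZMod q) := by
      rw [Int.cast_neg, Int.cast_neg, Int.cast_one, Int.cast_natCast]
      ring
    rw [e]
    exact hm1.mul hab

/-- **there are infinitely many tower primes exactly when there is one, exactly when there are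
suitable neutral primes** -/
theorem tw_iff {a b : ℤ} (hb : b ≠ 0) (hc : a ^ 2 - 4 * b ≠ 0) :
    ({q | Tw a b q}.Infinite ↔ ∃ q, Tw a b q) ∧
    ((∃ q, Tw a b q) ↔ (∃ p, N1 a b p) ∨ ((∃ p, N2 a b p) ∧
      ∃ p : ℕ, p.Prime ∧ p ≠ 2 ∧ ¬ (p : ℤ) ∣ a ∧ Odd (padicValInt p (a ^ 2 - 4 * b)))) := by
  have h1 : ((∃ p, N1 a b p) ∨ ((∃ p, N2 a b p) ∧
      ∃ p : ℕ, p.Prime ∧ p ≠ 2 ∧ ¬ (p : ℤ) ∣ a ∧ Odd (padicValInt p (a ^ 2 - 4 * b)))) →
      {q | Tw a b q}.Infinite := by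
    rintro (⟨p, hp⟩ | ⟨⟨p, hp⟩, p', hp'⟩)
    · exact inf_one hb hc hp
    · exact inf_two hb hc hp hp'
  have h2 : (∃ q, Tw a b q) → ((∃ p, N1 a b p) ∨ ((∃ p, N2 a b p) ∧
      ∃ p : ℕ, p.Prime ∧ p ≠ 2 ∧ ¬ (p : ℤ) ∣ a ∧ Odd (padicValInt p (a ^ 2 - 4 * b)))) := by
    rintro ⟨q, hq, h8, h3, h4, h5⟩
    haveI : Fact q.Prime := ⟨hq⟩
    obtain ⟨p, hp, hp2, hpo, hps⟩ := exists_odd h8 hb h3
    obtain ⟨r, hr, hr2, hro, hrs⟩ := exists_odd h8 hc h4
    haveI : Fact p.Prime := ⟨hp⟩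
    haveI : Fact r.Prime := ⟨hr⟩
    have hd : ∀ {p : ℕ} {n : ℤ}, Odd (padicValInt p n) → (p : ℤ) ∣ n := by
      intro p n hpo
      by_contra hcon
      rw [padicValInt.eq_zero_of_not_dvd hcon] at hpo
      exact absurd hpo (by decide)
    have hNp := (h5 p hp hp2 (dvd_mul_of_dvd_left (hd hpo) _)).resolve_right hps
    have hNr := (h5 r hr hr2 (dvd_mul_of_dvd_right (hd hro) _)).resolve_right hrs
    rcases hNp with ⟨h6, h7, h8'⟩ | ⟨h6, h7⟩
    · exact Or.inl ⟨p, hp, hp2, h6, h7, h8'⟩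
    · rcases hNr with ⟨h9, h10, h11⟩ | ⟨h9, h10⟩
      · exact Or.inl ⟨r, hr, hr2, h9, h10, h11⟩
      · exact Or.inr ⟨⟨p, hp, hp2, h6, hpo⟩, r, hr, hr2, h9, hro⟩
  refine ⟨⟨fun h => h.nonempty, fun h => h1 (h2 h)⟩, ⟨h2, fun h => (h1 h).nonempty⟩⟩

end Pool.Agent.U80.NP
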