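import Pool.Agent.U80.NP.Dual

/-!
# The classes form a group
-/

set_option autoImplicit false

namespace Pool.Agent.U80.NP

open Pool.Agent.Y695 (LocA)
open Pool.Agent.Y682

section

variable {K : Type} [Field K] {a b d d' : K}

lemma locA_sq' {t : K} (ht : t ≠ 0) (h : LocA K a b d) : LocA K a b (d * t ^ 2) := by
  rcases h with ⟨s, hs⟩ | ⟨s, hs⟩ | ⟨X, Y, hX, hY, s, hs⟩
  · exact Or.inl ⟨s * t, by rw [hs]; ring⟩
  · exact Or.inr (Or.inl ⟨s * t, by linear_combination t ^ 2 * hs⟩)
  · exact Or.inr (Or.inr ⟨X, Y, hX, hY, s * t, by linear_combination t ^ 2 * hs⟩)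

lemma locA_b (hb : b ≠ 0) (h : LocA K a b d) : LocA K a b (b * d) := by
  rcases h with ⟨s, hs⟩ | h | ⟨X, Y, hX, hY, s, hs⟩
  · exact Or.inr (Or.inl ⟨b * s, by rw [hs]; ring⟩)
  · exact Or.inl h
  · refine Or.inr (Or.inr ⟨b / X, b * Y / X ^ 2, div_ne_zero hb hX, ?_, b * s / X, ?_⟩)
    · field_simp
      linear_combination hY
    · field_simp
      linear_combination hs

/-- the local classes form a group -/
theorem locA_mul (hb : b ≠ 0) (hd : d ≠ 0) (hd' : d' ≠ 0) (h : LocA K a b d)
    (h' : LocA K a b d') : LocA K a b (d * d') := by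
  rcases h with ⟨s, hs⟩ | ⟨s, hs⟩ | ⟨X, Y, hX, hY, s, hs⟩
  · have hs0 : s ≠ 0 := by
      rintro rfl
      exact hd (by rw [hs]; ring)
    have := locA_sq' hs0 h'
    have e : d * d' = d' * s ^ 2 := by rw [hs]; ring
    rw [e]
    exact this
  · have hs0 : s ≠ 0 := by
      rintro rfl
      exact (mul_ne_zero hb hd) (by rw [hs]; ring)
    have h1 := locA_sq' (div_ne_zero hs0 hb) (locA_b hb h')
    have e : b * d' * (s / b) ^ 2 = d * d' := by
      field_simp
      linear_combination -hs
    rwa [e] at h1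
  · rcases h' with ⟨s', hs'⟩ | ⟨s', hs'⟩ | ⟨X', Y', hX', hY', s', hs'⟩
    · have hs0 : s' ≠ 0 := by
        rintro rfl
        exact hd' (by rw [hs']; ring)
      have := locA_sq' (a := a) (b := b) (d := d) hs0 (Or.inr (Or.inr ⟨X, Y, hX, hY, s, hs⟩))
      have e : d * d' = d * s' ^ 2 := by rw [hs']; ring
      rw [e]
      exact this
    · have hs0 : s' ≠ 0 := by
        rintro rfl
        exact (mul_ne_zero hb hd') (by rw [hs']; ring)
      have h1 := locA_sq' (div_ne_zero hs0 hb)
        (locA_b (a := a) (d := d) hb (Or.inr (Or.inr ⟨X, Y, hX, hY, s, hs⟩)))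
      have e : b * d * (s' / b) ^ 2 = d * d' := by
        field_simp
        linear_combination -hs'
      rwa [e] at h1
    · by_cases hXX : X = X'
      · left
        subst hXX
        refine ⟨s * s' / X, ?_⟩
        have h1 : (s * s' / X) * (s * s' / X) = (s * s) * (s' * s') / (X * X) := by
          field_simp
        rw [h1, ← hs, ← hs']
        field_simp
      · have hne : X' - X ≠ 0 := sub_ne_zero.2 fun h => hXX h.symm
        -- the line
        obtain ⟨l, hl⟩ : ∃ l : K, l * (X' - X) = Y' - Y := ⟨(Y' - Y) / (X' - X), by field_simp⟩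
        obtain ⟨m, hm⟩ : ∃ m : K, m = Y - l * X := ⟨_, rfl⟩
        have hY1 : Y = l * X + m := by rw [hm]; ring
        have hY2 : Y' = l * X' + m := by rw [hm]; linear_combination -hl
        obtain ⟨Z, hZ⟩ : ∃ Z : K, Z = l ^ 2 - a - X - X' := ⟨_, rfl⟩
        -- the two other symmetric functions of the roots
        have hf1 : X ^ 3 + (a - l ^ 2) * X ^ 2 + (b - 2 * l * m) * X - m ^ 2 = 0 := by
          rw [hY1] at hY
          linear_combination -hY
        have hf2 : X' ^ 3 + (a - l ^ 2) * X' ^ 2 + (b - 2 * l * m) * X' - m ^ 2 = 0 := by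
          rw [hY2] at hY'
          linear_combination -hY'
        have he2 : X ^ 2 + X * X' + X' ^ 2 + (a - l ^ 2) * (X + X') + (b - 2 * l * m) = 0 := by
          apply mul_left_cancel₀ hne
          rw [mul_zero]
          linear_combination hf2 - hf1
        have he3 : X * X' * Z = m ^ 2 := by
          rw [hZ]
          linear_combination hf1 - X * he2
        have he4 : X * X' + X * Z + X' * Z = b - 2 * l * m := by
          rw [hZ]
          linear_combination -he2
        have hsum : X + X' + Z = l ^ 2 - a := by rw [hZ]; ring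
        by_cases hm0 : m = 0
        · -- the sum is the point of order two
          rw [hm0] at he3 he4
          have hZ0 : Z = 0 := by
            have : X * X' * Z = 0 := by rw [he3]; ring
            exact (mul_eq_zero.1 this).resolve_left (mul_ne_zero hX hX')
          rw [hZ0] at he4
          right; left
          refine ⟨s * s', ?_⟩
          have : b = X * X' := by linear_combination -he4
          rw [this]
          linear_combination d' * X' * hs + s ^ 2 * hs'
        · right; right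
          have hZ0 : Z ≠ 0 := by
            rintro hZ0
            rw [hZ0, mul_zero] at he3
            exact hm0 (pow_eq_zero_iff (two_ne_zero) |>.1 he3.symm)
          refine ⟨Z, l * Z + m, hZ0, ?_, m * s * s' / (X * X'), ?_⟩
          · have hcub : Z ^ 3 + (a - l ^ 2) * Z ^ 2 + (b - 2 * l * m) * Z - m ^ 2 = 0 := by
              rw [← he3, ← he4]
              have : a - l ^ 2 = -(X + X' + Z) := by rw [hsum]; ring
              rw [this]
              ring
            linear_combination -hcub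
          · have h1 : m * s * s' / (X * X') * (m * s * s' / (X * X')) =
                m ^ 2 * (s * s) * (s' * s') / (X * X') ^ 2 := by
              field_simp
            rw [h1, ← hs, ← hs', ← he3]
            field_simp

end

section

/-- squarefree integers with a square product are equal -/
lemma sqf_unique {d d' : ℤ} (h : Squarefree d) (h' : Squarefree d') {s : ℤ} (hs : d * d' = s ^ 2) :
    d = d' := by
  have hg0 : (Int.gcd d d' : ℤ) ≠ 0 := by
    intro h0
    have : Int.gcd d d' = 0 := by exact_mod_cast h0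
    exact h.ne_zero (Int.gcd_eq_zero_iff.1 this).1
  obtain ⟨u, hu⟩ := Int.gcd_dvd_left (a := d) (b := d')
  obtain ⟨v, hv⟩ := Int.gcd_dvd_right (a := d) (b := d')
  have hcop : IsCoprime u v := by
    rw [Int.isCoprime_iff_gcd_eq_one]
    have h1 := Int.gcd_mul_left (Int.gcd d d' : ℤ) u v
    rw [← hu, ← hv, Int.natAbs_natCast] at h1
    have h2 : 0 < Int.gcd d d' := by
      rcases Nat.eq_zero_or_pos (Int.gcd d d') with h3 | h3
      · exact absurd (by exact_mod_cast h3) hg0
      · exact h3
    exact Nat.eq_of_mul_eq_mul_left h2 (by rw [mul_one]; exact h1.symm)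
  obtain ⟨g, hg⟩ : ∃ g : ℤ, g = (Int.gcd d d' : ℤ) := ⟨_, rfl⟩
  rw [← hg] at hu hv hg0
  have h3 : g ^ 2 * (u * v) = s ^ 2 := by rw [← hs, hu, hv]; ring
  obtain ⟨t, ht⟩ : g ∣ s := by
    have : g ^ 2 ∣ s ^ 2 := ⟨_, h3.symm⟩
    exact (Int.pow_dvd_pow_iff two_ne_zero).1 this
  have h4 : u * v = t ^ 2 := by
    rw [ht] at h3
    have : g ^ 2 * (u * v) = g ^ 2 * t ^ 2 := by rw [h3]; ring
    exact mul_left_cancel₀ (pow_ne_zero 2 hg0) this
  have hunit : ∀ {x y : ℤ}, Squarefree x → IsCoprime x y → x * y = t ^ 2 → x = 1 ∨ x = -1 := by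
    intro x y hx hxy hxt
    obtain ⟨r, hr⟩ := Int.sq_of_isCoprime hxy hxt
    have hr1 : r * r ∣ x := by
      rcases hr with hr | hr
      · exact ⟨1, by rw [hr]; ring⟩
      · exact ⟨-1, by rw [hr]; ring⟩
    have hr2 := Int.isUnit_iff.1 (hx r hr1)
    rcases hr2 with e | e <;> rcases hr with hr | hr <;> rw [hr, e] <;> norm_num
  have hu1 := hunit (h.squarefree_of_dvd ⟨g, by rw [hu]; ring⟩) hcop h4
  have hv1 := hunit (h'.squarefree_of_dvd ⟨g, by rw [hv]; ring⟩) hcop.symm
    (by rw [mul_comm]; exact h4)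
  have huv : u = v := by
    rcases hu1 with e1 | e1 <;> rcases hv1 with e2 | e2
    · rw [e1, e2]
    · exfalso
      rw [e1, e2] at h4
      nlinarith [sq_nonneg t]
    · exfalso
      rw [e1, e2] at h4
      nlinarith [sq_nonneg t]
    · rw [e1, e2]
  rw [hu, hv, huv]

lemma cls_inj {d d' : ℤ} (h : Squarefree d) (h' : Squarefree d') (hc : cls d = cls d') :
    d = d' := by
  have hd : (d : ℚ) ≠ 0 := by exact_mod_cast h.ne_zero
  have hd' : (d' : ℚ) ≠ 0 := by exact_mod_cast h'.ne_zero
  unfold cls at hc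
  rw [dif_pos hd, dif_pos hd', quot_eq] at hc
  obtain ⟨t, ht⟩ := hc
  have h1 := congrArg (fun x : ℚˣ => (x : ℚ)) ht
  simp only [Units.val_mul, Units.val_pow_eq_pow_val, Units.val_mk0] at h1
  -- the product is a square
  have h2 : IsSquare ((d * d' : ℤ) : ℚ) := by
    first
    | exact ⟨d * t, by push_cast; rw [h1]; ring⟩
    | exact ⟨d' * t, by push_cast; rw [h1]; ring⟩
  rw [Rat.isSquare_intCast_iff] at h2
  obtain ⟨s, hs⟩ := h2
  exact sqf_unique h h' (s := s) (by rw [hs]; ring)

end

/-- the group of the classes -/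
noncomputable def Gp (a b : ℤ) (hb : b ≠ 0) : Subgroup (ℚˣ ⧸ Sq ℚ) where
  carrier := cls '' Sel a b
  one_mem' := by
    refine ⟨1, one_mem _ _, ?_⟩
    have := cls_eq (x := 1) (d := 1) (t := 1) one_ne_zero (by push_cast; norm_num) one_ne_zero
    rw [this]
    rfl
  mul_mem' := by
    rintro x y ⟨d, hd, rfl⟩ ⟨d', hd', rfl⟩
    have hd0 := hd.1.ne_zero
    have hd0' := hd'.1.ne_zero
    have hdd : ((d * d' : ℤ) : ℚ) ≠ 0 := by exact_mod_cast mul_ne_zero hd0 hd0'
    obtain ⟨e, t, he, ht, het⟩ := exists_sqf ((d * d' : ℤ) : ℚ) hdd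
    have key : ∀ (K : Type) [Field K] [CharZero K], LocA K (a : K) (b : K) (d : K) →
        LocA K (a : K) (b : K) (d' : K) → LocA K (a : K) (b : K) (e : K) := by
      intro K _ _ h1 h2
      have h3 := locA_mul (by exact_mod_cast hb) (by exact_mod_cast hd0) (by exact_mod_cast hd0')
        h1 h2
      have h4 : (d : K) * (d' : K) = (e : K) * (t : K) ^ 2 := by
        have := congrArg (fun x : ℚ => (x : K)) het
        push_cast at this
        exact this
      rw [h4] at h3
      exact locA_sq (by exact_mod_cast ht) h3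
    refine ⟨e, ⟨he, key ℝ hd.2.1 hd'.2.1, fun p _ => key ℚ_[p] (hd.2.2 p) (hd'.2.2 p)⟩, ?_⟩
    have h5 := cls_eq (x := Units.mk0 (d : ℚ) (by exact_mod_cast hd0) *
      Units.mk0 (d' : ℚ) (by exact_mod_cast hd0')) (d := e) (t := t) ht (by
        rw [Units.val_mul, Units.val_mk0, Units.val_mk0, ← het]; push_cast; ring) he.ne_zero
    rw [h5]
    unfold cls
    rw [dif_pos (show (d : ℚ) ≠ 0 by exact_mod_cast hd0),
      dif_pos (show (d' : ℚ) ≠ 0 by exact_mod_cast hd0')]
    rfl
  inv_mem' := by
    rintro x ⟨d, hd, rfl⟩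
    refine ⟨d, hd, ?_⟩
    have hd0 : (d : ℚ) ≠ 0 := by exact_mod_cast hd.1.ne_zero
    unfold cls
    rw [dif_pos hd0, ← QuotientGroup.mk_inv, quot_eq]
    refine ⟨(Units.mk0 (d : ℚ) hd0)⁻¹, ?_⟩
    group

theorem ncard_pow {a b : ℤ} (hb : b ≠ 0) : (Sel a b).ncard = 2 ^ Nat.log 2 (Sel a b).ncard := by
  have hf := sel_finite (a := a) hb
  have hfin : Finite (Gp a b hb) := (hf.image cls).to_subtype
  have h1 : Nat.card (Gp a b hb) = (Sel a b).ncard := by
    show Nat.card (cls '' Sel a b) = _
    rw [Nat.card_coe_set_eq]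
    exact Set.InjOn.ncard_image fun x hx y hy h => cls_inj hx.1 hy.1 h
  have hp : IsPGroup 2 (Gp a b hb) := by
    rintro ⟨x, hx⟩
    refine ⟨1, ?_⟩
    apply Subtype.ext
    show x ^ (2 ^ 1) = 1
    induction x using QuotientGroup.induction_on with
    | H u =>
      rw [← QuotientGroup.mk_pow, QuotientGroup.eq_one_iff]
      exact ⟨u, by simp⟩
  obtain ⟨n, hn⟩ := IsPGroup.iff_card.1 hp
  rw [h1] at hn
  rw [hn, Nat.log_pow (by norm_num)]

end Pool.Agent.U80.NP
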