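import Pool.Agent.U80.NP.Bd

/-!
# The dual curve, the quartics, the cardinalities
-/

set_option autoImplicit false

namespace Pool.Agent.U80.NP

open Pool.Agent.Y695 (LocA)

variable {a b : ℤ}

lemma neutral_dual {p : ℕ} (hp : p.Prime) (h2 : p ≠ 2) (hb : b ≠ 0) (hc : a ^ 2 - 4 * b ≠ 0)
    (h : Neutral a b p) : Neutral (-2 * a) (a ^ 2 - 4 * b) p := by
  haveI : Fact p.Prime := ⟨hp⟩
  have hpZ := Nat.prime_iff_prime_int.1 hp
  have hp2 : ¬ (p : ℤ) ∣ 2 := by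
    intro h
    have h1 : p ∣ 2 := by exact_mod_cast h
    exact h2 ((Nat.prime_dvd_prime_iff_eq hp Nat.prime_two).1 h1)
  have hp4 : ¬ (p : ℤ) ∣ 4 := by
    intro h
    have : (p : ℤ) ∣ 2 * 2 := by norm_num; exact h
    exact (hpZ.dvd_mul.1 this).elim hp2 hp2
  rcases h with ⟨h3, h4, h5⟩ | ⟨h3, h4⟩
  · left
    refine ⟨dvd_mul_of_dvd_right h3 _, ?_, ?_⟩
    · exact dvd_sub (dvd_pow h3 two_ne_zero) (dvd_mul_of_dvd_right h4 _)
    · intro h6
      apply h5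
      have h7 : (p : ℤ) ^ 2 ∣ 4 * b := by
        have h8 := dvd_sub (pow_dvd_pow_of_dvd h3 2) h6
        have e : a ^ 2 - (a ^ 2 - 4 * b) = 4 * b := by ring
        rwa [e] at h8
      have hco : IsCoprime ((p : ℤ) ^ 2) 4 := ((Prime.coprime_iff_not_dvd hpZ).2 hp4).pow_left
      exact hco.dvd_of_dvd_mul_left h7
  · right
    refine ⟨?_, ?_⟩
    · intro h5
      rcases hpZ.dvd_mul.1 h5 with h6 | h6
      · exact hp2 (by simpa using h6)
      · exact h3 h6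
    · have e : (a ^ 2 - 4 * b) * ((-2 * a) ^ 2 - 4 * (a ^ 2 - 4 * b)) =
          16 * (b * (a ^ 2 - 4 * b)) := by ring
      rw [e, padicValInt.mul (by norm_num) (mul_ne_zero hb hc)]
      have h6 : ¬ (p : ℤ) ∣ 16 := by
        intro h
        have : (p : ℤ) ∣ 4 * 4 := by norm_num; exact h
        exact (hpZ.dvd_mul.1 this).elim hp4 hp4
      rw [padicValInt.eq_zero_of_not_dvd h6, zero_add]
      exact h4

lemma sq16 {q : ℕ} [Fact q.Prime] (h2 : q ≠ 2) {b : ℤ} (h : ¬ IsSquare (b : ZMod q)) :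
    ¬ IsSquare ((16 * b : ℤ) : ZMod q) := by
  intro h1
  apply h
  have h16 : (4 : ZMod q) ≠ 0 := by
    intro h3
    have h4 : ((4 : ℕ) : ZMod q) = 0 := by exact_mod_cast h3
    rw [ZMod.natCast_eq_zero_iff] at h4
    have h5 : q ∣ 2 ^ 2 := by norm_num; exact h4
    exact h2 ((Nat.prime_dvd_prime_iff_eq Fact.out Nat.prime_two).1
      ((Fact.out : q.Prime).dvd_of_dvd_pow h5))
  obtain ⟨s, hs⟩ := h1
  refine ⟨s / 4, ?_⟩
  push_cast at hs
  field_simp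
  linear_combination hs

theorem tw_dual {q : ℕ} (hb : b ≠ 0) (hc : a ^ 2 - 4 * b ≠ 0) (h : Tw a b q) :
    Tw (-2 * a) (a ^ 2 - 4 * b) q := by
  obtain ⟨h1, h2, h3, h4, h5⟩ := h
  haveI : Fact q.Prime := ⟨h1⟩
  have hq2 : q ≠ 2 := by rintro rfl; omega
  refine ⟨h1, h2, h4, ?_, ?_⟩
  · have e : (-2 * a) ^ 2 - 4 * (a ^ 2 - 4 * b) = 16 * b := by ring
    rw [e]
    exact sq16 hq2 h3
  · intro p hp hp2 hpd
    have hpZ := Nat.prime_iff_prime_int.1 hp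
    have h6 : (p : ℤ) ∣ b * (a ^ 2 - 4 * b) := by
      have e : (a ^ 2 - 4 * b) * ((-2 * a) ^ 2 - 4 * (a ^ 2 - 4 * b)) =
          2 ^ 4 * (b * (a ^ 2 - 4 * b)) := by ring
      rw [e] at hpd
      rcases hpZ.dvd_mul.1 hpd with h7 | h7
      · exfalso
        have h8 := hpZ.dvd_of_dvd_pow h7
        have h9 : p ∣ 2 := by exact_mod_cast h8
        exact hp2 ((Nat.prime_dvd_prime_iff_eq hp Nat.prime_two).1 h9)
      · exact h7
    exact (h5 p hp hp2 h6).imp (neutral_dual hp hp2 hb hc) id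

/-- invariance for the dual curve -/
theorem inv_dual {U : Finset ℕ} (hb : b ≠ 0) (hc : a ^ 2 - 4 * b ≠ 0) (hU : ∀ q ∈ U, Tw a b q) :
    Sel (-2 * (a * ((∏ q ∈ U, q : ℕ) : ℤ)))
      ((a * ((∏ q ∈ U, q : ℕ) : ℤ)) ^ 2 - 4 * (b * ((∏ q ∈ U, q : ℕ) : ℤ) ^ 2)) =
    Sel (-2 * a) (a ^ 2 - 4 * b) := by
  have hc' : (-2 * a) ^ 2 - 4 * (a ^ 2 - 4 * b) ≠ 0 := by
    have e : (-2 * a) ^ 2 - 4 * (a ^ 2 - 4 * b) = 16 * b := by ring
    rw [e]
    exact mul_ne_zero (by norm_num) hb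
  have h := inv hc hc' fun q hq => tw_dual hb hc (hU q hq)
  rw [← h]
  congr 1
  · ring
  · ring

/-- the quartic is soluble exactly when the class is in the local image -/
theorem locA_iff {K : Type} [Field K] {a b d e : K} (hd : d ≠ 0) (hb : b = d * e) :
    LocA K a b d ↔ ∃ N M z : K, (M ≠ 0 ∨ z ≠ 0) ∧
      N ^ 2 = d * M ^ 4 + a * M ^ 2 * z ^ 2 + e * z ^ 4 := by
  constructor
  · rintro (⟨s, hs⟩ | ⟨s, hs⟩ | ⟨X, Y, hX, hY, ⟨t, ht⟩⟩)
    · exact ⟨s, 1, 0, Or.inl one_ne_zero, by rw [hs]; ring⟩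
    · refine ⟨s / d, 0, 1, Or.inr one_ne_zero, ?_⟩
      rw [hb] at hs
      field_simp
      linear_combination -hs
    · have ht0 : t ≠ 0 := by
        rintro rfl
        exact (mul_ne_zero hX hd) (by rw [ht]; ring)
      have hXt : X = t ^ 2 / d := by
        field_simp
        linear_combination ht
      refine ⟨Y / t, t / d, 1, Or.inl (div_ne_zero ht0 hd), ?_⟩
      rw [div_pow, hY, hXt, hb]
      field_simp
  · rintro ⟨N, M, z, h, hN⟩
    by_cases hz : z = 0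
    · have hM : M ≠ 0 := h.resolve_right (not_not.2 hz)
      left
      refine ⟨N / M ^ 2, ?_⟩
      rw [hz] at hN
      field_simp
      linear_combination -hN
    by_cases hM : M = 0
    · right; left
      refine ⟨d * N / z ^ 2, ?_⟩
      rw [hM] at hN
      rw [hb]
      field_simp
      linear_combination -hN
    · right; right
      refine ⟨d * M ^ 2 / z ^ 2, d * M * N / z ^ 3, ?_, ?_, ⟨d * M / z, ?_⟩⟩
      · exact div_ne_zero (mul_ne_zero hd (pow_ne_zero 2 hM)) (pow_ne_zero 2 hz)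
      · rw [hb]
        field_simp
        linear_combination hN
      · field_simp

/-- the set of the classes of the locally soluble quartics -/
def Qs (a b : ℤ) : Set ℤ :=
  {b₁ : ℤ | Squarefree b₁ ∧ b₁ ∣ b ∧
    (∃ N M e : ℝ, (M ≠ 0 ∨ e ≠ 0) ∧
      N ^ 2 = (b₁ : ℝ) * M ^ 4 + (a : ℝ) * M ^ 2 * e ^ 2 + ((b / b₁ : ℤ) : ℝ) * e ^ 4) ∧
    ∀ (p : ℕ) [Fact p.Prime], ∃ N M e : ℚ_[p], (M ≠ 0 ∨ e ≠ 0) ∧
      N ^ 2 = (b₁ : ℚ_[p]) * M ^ 4 + (a : ℚ_[p]) * M ^ 2 * e ^ 2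
        + ((b / b₁ : ℤ) : ℚ_[p]) * e ^ 4}

theorem qs_eq (a b : ℤ) : Qs a b = Sel a b := by
  ext d
  unfold Qs Sel
  simp only [Set.mem_setOf_eq]
  constructor
  · rintro ⟨h1, h2, h3, h4⟩
    have h5 : b = d * (b / d) := (Int.mul_ediv_cancel' h2).symm
    refine ⟨h1, ?_, fun p _ => ?_⟩
    · exact (locA_iff (by exact_mod_cast h1.ne_zero) (by exact_mod_cast h5)).2 h3
    · exact (locA_iff (by exact_mod_cast h1.ne_zero) (by exact_mod_cast h5)).2 (h4 p)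
  · rintro ⟨h1, h3, h4⟩
    have h2 : d ∣ b := sel_dvd ⟨h1, h3, fun p _ => h4 p⟩
    have h5 : b = d * (b / d) := (Int.mul_ediv_cancel' h2).symm
    refine ⟨h1, h2, ?_, fun p _ => ?_⟩
    · exact (locA_iff (by exact_mod_cast h1.ne_zero) (by exact_mod_cast h5)).1 h3
    · exact (locA_iff (by exact_mod_cast h1.ne_zero) (by exact_mod_cast h5)).1 (h4 p)

end Pool.Agent.U80.NP
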