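import Mathlib

/-!
# The completions of `ℚ`
-/

set_option autoImplicit false

open NumberField IsDedekindDomain

namespace Pool.Agent.U80.NP

/-- the completion at `l` -/
theorem exists_hom (l : ℕ) [hl : Fact l.Prime] : ∃ v : HeightOneSpectrum (𝓞 ℚ),
    Nonempty (v.adicCompletion ℚ →+* ℚ_[l]) := by
  refine ⟨Rat.HeightOneSpectrum.primesEquiv.symm ⟨l, hl.out⟩, ⟨?_⟩⟩
  exact (Padic.adicCompletionEquiv (𝓞 ℚ) ⟨l, hl.out⟩).symm.toAlgEquiv.toRingEquiv.toRingHom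

end Pool.Agent.U80.NP
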