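import Pool.Agent.U80.NP.Inv
import Pool.Agent.U80.NP.Hom
import Pool.Agent.Y682.ZS
import Pool.Agent.Y682.AM

/-!
# The rank and the 2-torsion of the Tate-Shafarevich group are bounded by the two sets of classes
-/

set_option autoImplicit false

attribute [-instance] DivisionRing.toRatAlgebra

open NumberField IsDedekindDomain

namespace Pool.Agent.U80.NP

open Pool.Agent.Y695 (LocA)
open Pool.Agent.Y682

theorem exists_homR : ∃ v : InfinitePlace ℚ, Nonempty (v.Completion →+* ℝ) := by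
  obtain ⟨v⟩ := (inferInstance : Nonempty (InfinitePlace ℚ))
  rcases v.isReal_or_isComplex with h | h
  · exact ⟨v, ⟨(InfinitePlace.Completion.ringEquivRealOfIsReal h).toRingHom⟩⟩
  · exfalso
    have h1 : v = Rat.infinitePlace := Subsingleton.elim _ _
    rw [h1] at h
    exact (InfinitePlace.not_isReal_iff_isComplex.2 h) Rat.isReal_infinitePlace

theorem map_rat {R : Type*} [DivisionRing R] [CharZero R] {F : Type*} [Field F] [Algebra ℚ F]
    (e : F →+* R) (q : ℚ) : e (algebraMap ℚ F q) = (q : R) := by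
  have : e.comp (algebraMap ℚ F) = Rat.castHom R := RingHom.ext_rat _ _
  exact congrArg (fun f : ℚ →+* R => f q) this

lemma locA_of_s1 {F R : Type} [Field F] [Field R] [CharZero R] [Algebra ℚ F] (e : F →+* R)
    {A B x : ℚ} (h : ∃ z m : F, z ≠ 0 ∧ algebraMap ℚ F x * z ^ 2 = m ∧
      S1 (algebraMap ℚ F A) (algebraMap ℚ F B) m) : LocA R (A : R) (B : R) (x : R) := by
  obtain ⟨z, m, hz, hzm, hm⟩ := h
  have hz' : e z ≠ 0 := (map_ne_zero e).2 hz
  have h1 : (x : R) * (e z) ^ 2 = e m := by rw [← hzm, map_mul, map_pow, map_rat]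
  rcases hm with h2 | h2 | ⟨h2, y, hy⟩
  · left
    rw [h2, map_one] at h1
    refine ⟨1 / e z, ?_⟩
    field_simp
    exact h1
  · right; left
    rw [h2, map_rat] at h1
    exact ⟨x * e z, by rw [← h1]; ring⟩
  · right; right
    refine ⟨e m, e y, (map_ne_zero e).2 h2, ?_, ?_⟩
    · rw [← map_pow, hy]
      simp only [map_mul, map_add, map_pow, map_rat]
    · rw [← h1]
      exact ⟨x * e z, by ring⟩

lemma locA_of_s2 {F R : Type} [Field F] [Field R] [CharZero R] [Algebra ℚ F] (e : F →+* R)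
    {A B x : ℚ} (h : ∃ z m : F, z ≠ 0 ∧ algebraMap ℚ F x * z ^ 2 = m ∧
      S2 (algebraMap ℚ F A) (algebraMap ℚ F B) m) :
    LocA R ((-2 * A : ℚ) : R) ((A ^ 2 - 4 * B : ℚ) : R) (x : R) := by
  obtain ⟨z, m, hz, hzm, hm⟩ := h
  have hz' : e z ≠ 0 := (map_ne_zero e).2 hz
  have h1 : (x : R) * (e z) ^ 2 = e m := by rw [← hzm, map_mul, map_pow, map_rat]
  rcases hm with h2 | h2 | ⟨h2, y, hy⟩
  · left
    rw [h2, map_one] at h1
    refine ⟨1 / e z, ?_⟩
    field_simp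
    exact h1
  · right; left
    have h3 : e m = ((A ^ 2 - 4 * B : ℚ) : R) := by
      rw [h2]
      simp only [map_sub, map_mul, map_pow, map_rat, map_ofNat]
      push_cast
      ring
    rw [h3] at h1
    exact ⟨x * e z, by rw [← h1]; ring⟩
  · right; right
    refine ⟨e m, e y, (map_ne_zero e).2 h2, ?_, ?_⟩
    · rw [← map_pow, hy]
      simp only [map_mul, map_sub, map_pow, map_rat, map_ofNat]
      push_cast
      ring
    · rw [← h1]
      exact ⟨x * e z, by ring⟩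

/-- a rational number is a squarefree integer times a square -/
theorem exists_sqf (b : ℚ) (hb : b ≠ 0) : ∃ (d : ℤ) (t : ℚ), Squarefree d ∧ t ≠ 0 ∧
    b = d * t ^ 2 := by
  have hn : b.num ≠ 0 := Rat.num_ne_zero.2 hb
  have hd : (b.den : ℤ) ≠ 0 := by exact_mod_cast b.den_ne_zero
  obtain ⟨a, c, hac, hsf⟩ := Nat.sq_mul_squarefree (b.num * b.den).natAbs
  have hnd : b.num * b.den ≠ 0 := mul_ne_zero hn hd
  have h1 : b.num * b.den = ((b.num * b.den).sign * a) * (c : ℤ) ^ 2 := by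
    have h2 := Int.sign_mul_natAbs (b.num * b.den)
    rw [← hac] at h2
    push_cast at h2
    linear_combination -h2
  have hc0 : (c : ℤ) ≠ 0 := by
    intro h
    rw [h] at h1
    apply hnd
    rw [h1]; ring
  refine ⟨(b.num * b.den).sign * a, (c : ℚ) / b.den, ?_, ?_, ?_⟩
  · rw [← Int.squarefree_natAbs, Int.natAbs_mul, Int.natAbs_sign_of_ne_zero hnd, one_mul,
      Int.natAbs_natCast]
    exact hsf
  · exact div_ne_zero (by exact_mod_cast hc0) (by exact_mod_cast b.den_ne_zero)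
  · have hdq : (b.den : ℚ) ≠ 0 := by exact_mod_cast b.den_ne_zero
    have h2 : (b.num : ℚ) * b.den = (((b.num * b.den).sign * a : ℤ) : ℚ) * (c : ℚ) ^ 2 := by
      exact_mod_cast h1
    rw [div_pow, mul_div_assoc', ← h2]
    have h3 : b * b.den = b.num := Rat.mul_den_eq_num b
    field_simp
    linear_combination h3

lemma locA_sq {K : Type} [Field K] {a b d t : K} (ht : t ≠ 0) (h : LocA K a b (d * t ^ 2)) :
    LocA K a b d := by
  rcases h with h | h | ⟨X, Y, hX, hY, hs⟩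
  · left
    have e : d * t ^ 2 = (t * t) * d := by ring
    rw [e] at h
    exact sq_of_mul (mul_ne_zero ht ht) ⟨t, rfl⟩ h
  · right; left
    have e : b * (d * t ^ 2) = (t * t) * (b * d) := by ring
    rw [e] at h
    exact sq_of_mul (mul_ne_zero ht ht) ⟨t, rfl⟩ h
  · right; right
    refine ⟨X, Y, hX, hY, ?_⟩
    have e : X * (d * t ^ 2) = (t * t) * (X * d) := by ring
    rw [e] at hs
    exact sq_of_mul (mul_ne_zero ht ht) ⟨t, rfl⟩ hs

/-- the class of an integer modulo squares -/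
noncomputable def cls (n : ℤ) : ℚˣ ⧸ Sq ℚ :=
  if h : (n : ℚ) ≠ 0 then ((Units.mk0 (n : ℚ) h : ℚˣ) : ℚˣ ⧸ Sq ℚ) else 1

lemma cls_eq {x : ℚˣ} {d : ℤ} {t : ℚ} (ht : t ≠ 0) (hx : (x : ℚ) = d * t ^ 2) (hd : d ≠ 0) :
    cls d = (x : ℚˣ ⧸ Sq ℚ) := by
  have hdq : (d : ℚ) ≠ 0 := by exact_mod_cast hd
  unfold cls
  rw [dif_pos hdq, quot_eq]
  refine ⟨Units.mk0 t ht, ?_⟩
  apply Units.ext
  rw [Units.val_mul, Units.val_pow_eq_pow_val, Units.val_mk0, Units.val_mk0]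
  exact hx

theorem mem_of_LL1 {a b : ℤ} (x : ℚˣ) (h : LL1 (a : ℚ) (b : ℚ) (x : ℚ)) :
    (x : ℚˣ ⧸ Sq ℚ) ∈ cls '' (Sel a b) := by
  obtain ⟨d, t, hd, ht, hx⟩ := exists_sqf (x : ℚ) x.ne_zero
  refine ⟨d, ⟨hd, ?_, fun p _ => ?_⟩, cls_eq ht hx hd.ne_zero⟩
  · obtain ⟨v, ⟨e⟩⟩ := exists_homR
    have h1 := locA_of_s1 e (h.2 v)
    rw [hx] at h1
    have ht' : (t : ℝ) ≠ 0 := by exact_mod_cast ht
    push_cast at h1
    exact locA_sq ht' h1
  · obtain ⟨v, ⟨e⟩⟩ := exists_hom p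
    have h1 := locA_of_s1 e (h.1 v)
    rw [hx] at h1
    have ht' : (t : ℚ_[p]) ≠ 0 := by exact_mod_cast ht
    push_cast at h1
    exact locA_sq ht' h1

theorem mem_of_LL2 {a b : ℤ} (x : ℚˣ) (h : LL2 (a : ℚ) (b : ℚ) (x : ℚ)) :
    (x : ℚˣ ⧸ Sq ℚ) ∈ cls '' (Sel (-2 * a) (a ^ 2 - 4 * b)) := by
  obtain ⟨d, t, hd, ht, hx⟩ := exists_sqf (x : ℚ) x.ne_zero
  refine ⟨d, ⟨hd, ?_, fun p _ => ?_⟩, cls_eq ht hx hd.ne_zero⟩
  · obtain ⟨v, ⟨e⟩⟩ := exists_homR
    have h1 := locA_of_s2 e (h.2 v)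
    rw [hx] at h1
    have ht' : (t : ℝ) ≠ 0 := by exact_mod_cast ht
    push_cast at h1
    push_cast
    exact locA_sq ht' h1
  · obtain ⟨v, ⟨e⟩⟩ := exists_hom p
    have h1 := locA_of_s2 e (h.1 v)
    rw [hx] at h1
    have ht' : (t : ℚ_[p]) ≠ 0 := by exact_mod_cast ht
    push_cast at h1
    push_cast
    exact locA_sq ht' h1

lemma sel_dvd {a b d : ℤ} (h : d ∈ Sel a b) : d ∣ b := by
  obtain ⟨h1, -, h3⟩ := h
  rw [← Int.natAbs_dvd_natAbs]
  have hsq : Squarefree d.natAbs := Int.squarefree_natAbs.2 h1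
  by_cases hb : b = 0
  · rw [hb]; simp
  rw [← Nat.prod_primeFactors_of_squarefree hsq]
  refine Finset.prod_primes_dvd _ ?_ ?_
  · intro p hp
    exact (Nat.prime_of_mem_primeFactors hp).prime
  · intro p hp
    haveI : Fact p.Prime := ⟨Nat.prime_of_mem_primeFactors hp⟩
    by_contra hcon
    have h4 := dvd_one (a := a) (b := b) (U := ∅) (fun q hq => by simp at hq) h1 p
      (fun h5 => hcon (Int.natCast_dvd.1 h5)) (by simpa using h3 p)
    exact h4 (Int.natCast_dvd.2 (Nat.dvd_of_mem_primeFactors hp))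

lemma sel_finite {a b : ℤ} (hb : b ≠ 0) : (Sel a b).Finite := by
  refine (Set.finite_Icc (-|b|) |b|).subset fun d hd => ?_
  have h1 := Int.le_of_dvd (abs_pos.2 hb) ((dvd_abs _ _).2 (sel_dvd hd))
  have h2 := Int.le_of_dvd (abs_pos.2 hb) ((dvd_abs _ _).2 ((neg_dvd).2 (sel_dvd hd)))
  exact ⟨by linarith, h1⟩

lemma one_mem (a b : ℤ) : (1 : ℤ) ∈ Sel a b := by
  refine ⟨squarefree_one, Or.inl ⟨1, by simp⟩, fun p _ => Or.inl ⟨1, by simp⟩⟩

/-- **the bound** -/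
theorem bound {a b : ℤ} (hb : b ≠ 0) (hc : a ^ 2 - 4 * b ≠ 0) :
    Finite {x : Pool.Agent.TH841.NF.D.Sha (wc (a : ℚ) (b : ℚ)) // 2 • x = 0} ∧
    4 * 2 ^ (Module.finrank ℤ (MP (wc (a : ℚ) (b : ℚ)))) *
      Nat.card {x : Pool.Agent.TH841.NF.D.Sha (wc (a : ℚ) (b : ℚ)) // 2 • x = 0} ≤
      (Sel a b).ncard * (Sel (-2 * a) (a ^ 2 - 4 * b)).ncard := by
  have hbq : (b : ℚ) ≠ 0 := by exact_mod_cast hb
  have hcq : (a : ℚ) ^ 2 - 4 * (b : ℚ) ≠ 0 := by exact_mod_cast hc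
  have hT := wc_isT hbq hcq
  have hf1 := sel_finite (a := a) hb
  have hf2 := sel_finite (a := -2 * a) hc
  have hU : Finite (cls '' (Sel a b)) := (hf1.image _).to_subtype
  have hV : Finite (cls '' (Sel (-2 * a) (a ^ 2 - 4 * b))) := (hf2.image _).to_subtype
  have h1 : (1 : ℚˣ ⧸ Sq ℚ) ∈ cls '' (Sel (-2 * a) (a ^ 2 - 4 * b)) := by
    refine ⟨1, one_mem _ _, ?_⟩
    have := cls_eq (x := 1) (d := 1) (t := 1) one_ne_zero (by push_cast; norm_num) one_ne_zero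
    rw [this]
    rfl
  obtain ⟨hf, hcd⟩ := Zc_card hT h1 (fun x hx => mem_of_LL1 x hx) (fun x hx => mem_of_LL2 x hx)
  obtain ⟨hf', hl⟩ := Zc_lower hT
  refine ⟨hf', hl.trans (hcd.trans (Nat.mul_le_mul ?_ ?_))⟩
  · rw [Nat.card_coe_set_eq]
    exact Set.ncard_image_le hf1
  · rw [Nat.card_coe_set_eq]
    exact Set.ncard_image_le hf2

end Pool.Agent.U80.NP
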