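import Pool.Agent.U80.NP.Loc2

/-!
# The Selmer groups of the isogenies of degree two do not change in the tower
-/

set_option autoImplicit false

namespace Pool.Agent.U80.NP

open Pool.Agent.Y695 (LocA)

/-- the squarefree integers that satisfy all the local conditions of the descent for the curve
`y² = x³ + a x² + b x` -/
def Sel (a b : ℤ) : Set ℤ :=
  {d | Squarefree d ∧ LocA ℝ (a : ℝ) (b : ℝ) (d : ℝ) ∧
    ∀ (p : ℕ) [Fact p.Prime], LocA ℚ_[p] (a : ℚ_[p]) (b : ℚ_[p]) (d : ℚ_[p])}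

/-- the neutral primes -/
def Neutral (a b : ℤ) (p : ℕ) : Prop :=
  ((p : ℤ) ∣ a ∧ (p : ℤ) ∣ b ∧ ¬ (p : ℤ) ^ 2 ∣ b) ∨
    (¬ (p : ℤ) ∣ a ∧ Odd (padicValInt p (b * (a ^ 2 - 4 * b))))

/-- the tower primes -/
def Tw (a b : ℤ) (q : ℕ) : Prop :=
  q.Prime ∧ q % 8 = 1 ∧ ¬ IsSquare (b : ZMod q) ∧ ¬ IsSquare ((a ^ 2 - 4 * b : ℤ) : ZMod q) ∧
    ∀ p : ℕ, p.Prime → p ≠ 2 → (p : ℤ) ∣ b * (a ^ 2 - 4 * b) → Neutral a b p ∨ IsSquare (q : ZMod p)

lemma not_dvd_of_nsq {q : ℕ} {b : ℤ} (h : ¬ IsSquare (b : ZMod q)) : ¬ (q : ℤ) ∣ b := by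
  intro h1
  apply h
  rw [(ZMod.intCast_zmod_eq_zero_iff_dvd _ _).2 h1]
  exact ⟨0, by ring⟩

section

variable {a b : ℤ} {U : Finset ℕ}

lemma prod_mod8 (hU : ∀ q ∈ U, q % 8 = 1) : (∏ q ∈ U, q) % 8 = 1 := by
  classical
  induction U using Finset.induction_on with
  | empty => simp
  | insert q U hq ih =>
    rw [Finset.prod_insert hq, Nat.mul_mod, hU q (Finset.mem_insert_self _ _),
      ih fun r hr => hU r (Finset.mem_insert_of_mem hr)]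

lemma prod_not_dvd (hU : ∀ q ∈ U, q.Prime) {p : ℕ} (hp : p.Prime) (hpU : p ∉ U) :
    ¬ (p : ℤ) ∣ ((∏ q ∈ U, q : ℕ) : ℤ) := by
  intro h
  have h1 : p ∣ ∏ q ∈ U, q := by exact_mod_cast h
  obtain ⟨q, hq, h2⟩ := (Prime.dvd_finsetProd_iff hp.prime _).1 h1
  rw [(Nat.prime_dvd_prime_iff_eq hp (hU q hq)).1 h2] at hpU
  exact hpU hq

lemma sq_two {M : ℕ} (hM : M % 8 = 1) [Fact (Nat.Prime 2)] : IsSquare ((M : ℤ) : ℚ_[2]) := by
  obtain ⟨k, hk⟩ : ∃ k : ℕ, M = 1 + 8 * k := ⟨M / 8, by omega⟩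
  obtain ⟨s, hs⟩ := Pool.Agent.Y587.SG.hens 2 (k : ℤ_[2])
  refine ⟨s, ?_⟩
  have e0 : (1 : ℤ_[2]) + 4 * ((2 : ℕ) : ℤ_[2]) * (k : ℤ_[2]) = ((1 + 8 * k : ℕ) : ℤ_[2]) := by
    push_cast
    ring
  rw [e0, ← hk] at hs
  have h1 := congrArg (fun w : ℤ_[2] => (w : ℚ_[2])) hs
  push_cast at h1
  push_cast
  exact h1

lemma sq_prod {p : ℕ} [Fact p.Prime] (h : ∀ q ∈ U, IsSquare (q : ZMod p)) :
    IsSquare ((∏ q ∈ U, q : ℕ) : ZMod p) := by
  classical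
  induction U using Finset.induction_on with
  | empty => exact ⟨1, by simp⟩
  | insert q U hq ih =>
    rw [Finset.prod_insert hq]
    obtain ⟨r, hr⟩ := h q (Finset.mem_insert_self _ _)
    obtain ⟨s, hs⟩ := ih fun r hr => h r (Finset.mem_insert_of_mem hr)
    exact ⟨r * s, by rw [Nat.cast_mul, hr, hs]; ring⟩

lemma no_root {q : ℕ} [Fact q.Prime] (h2 : q ≠ 2) (h : ¬ IsSquare ((a ^ 2 - 4 * b : ℤ) : ZMod q))
    (z : ZMod q) : z ^ 2 + (a : ZMod q) * z + (b : ZMod q) ≠ 0 := by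
  intro h0
  apply h
  refine ⟨2 * z + a, ?_⟩
  push_cast
  linear_combination (-4) * h0

/-- the places of `ℚ` -/
theorem place (hb : b ≠ 0) (hc : a ^ 2 - 4 * b ≠ 0) (hU : ∀ q ∈ U, Tw a b q) {d : ℤ} (hd : d ≠ 0)
    (p : ℕ) [hp : Fact p.Prime] (hpd : ¬ (p : ℤ) ∣ b → ¬ (p : ℤ) ∣ d) :
    LocA ℚ_[p] ((a : ℚ_[p]) * (((∏ q ∈ U, q : ℕ) : ℤ) : ℚ_[p]))
      ((b : ℚ_[p]) * (((∏ q ∈ U, q : ℕ) : ℤ) : ℚ_[p]) ^ 2) (d : ℚ_[p]) ↔
    LocA ℚ_[p] (a : ℚ_[p]) (b : ℚ_[p]) (d : ℚ_[p]) := by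
  have hUp : ∀ q ∈ U, q.Prime := fun q hq => (hU q hq).1
  have hpos : 0 < ∏ q ∈ U, q := Finset.prod_pos fun q hq => (hUp q hq).pos
  set M : ℤ := ((∏ q ∈ U, q : ℕ) : ℤ) with hMd
  have hM0 : M ≠ 0 := by
    rw [hMd]
    exact_mod_cast hpos.ne'
  have hMp : (M : ℚ_[p]) ≠ 0 := by exact_mod_cast hM0
  have hdp : (d : ℚ_[p]) ≠ 0 := by exact_mod_cast hd
  have hbp : (b : ℚ_[p]) ≠ 0 := by exact_mod_cast hb
  have hcp : ((a ^ 2 - 4 * b : ℤ) : ℚ_[p]) ≠ 0 := by exact_mod_cast hc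
  -- the square alternatives
  have alt : (IsSquare (d : ℚ_[p]) ∨ IsSquare ((b : ℚ_[p]) * d)) →
      LocA ℚ_[p] ((a : ℚ_[p]) * (M : ℚ_[p])) ((b : ℚ_[p]) * (M : ℚ_[p]) ^ 2) (d : ℚ_[p]) ∧
      LocA ℚ_[p] (a : ℚ_[p]) (b : ℚ_[p]) (d : ℚ_[p]) := by
    rintro (h | h)
    · exact ⟨Or.inl h, Or.inl h⟩
    · refine ⟨Or.inr (Or.inl ?_), Or.inr (Or.inl h)⟩
      obtain ⟨s, hs⟩ := h
      exact ⟨(M : ℚ_[p]) * s, by linear_combination (M : ℚ_[p]) ^ 2 * hs⟩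
  by_cases h2 : p = 2
  · subst h2
    apply scaleM hMp
    rw [hMd]
    exact sq_two (prod_mod8 fun q hq => (hU q hq).2.1)
  by_cases hpU : p ∈ U
  · obtain ⟨-, -, h3, h4, -⟩ := hU p hpU
    have h5 := alt (sq_or h2 h3 (hpd (not_dvd_of_nsq h3)))
    exact ⟨fun _ => h5.2, fun _ => h5.1⟩
  have hpM : ¬ (p : ℤ) ∣ M := prod_not_dvd hUp hp.out hpU
  have hpM2 : ¬ (p : ℤ) ∣ M ^ 2 := fun h => hpM ((Nat.prime_iff_prime_int.1 hp.out).dvd_of_dvd_pow h)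
  have hMn := norm_int hpM
  have hpZ := Nat.prime_iff_prime_int.1 hp.out
  by_cases hbad : (p : ℤ) ∣ b * (a ^ 2 - 4 * b)
  swap
  · -- good reduction
    have h3 : ¬ (p : ℤ) ∣ b := fun h => hbad (dvd_mul_of_dvd_left h _)
    have h4 : ¬ (p : ℤ) ∣ a ^ 2 - 4 * b := fun h => hbad (dvd_mul_of_dvd_right h _)
    have h5 : ¬ (p : ℤ) ∣ b * M ^ 2 := fun h => (hpZ.dvd_mul.1 h).elim h3 hpM2
    have h6 : ¬ (p : ℤ) ∣ (a * M) ^ 2 - 4 * (b * M ^ 2) := by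
      have e : (a * M) ^ 2 - 4 * (b * M ^ 2) = (a ^ 2 - 4 * b) * M ^ 2 := by ring
      rw [e]
      exact fun h => (hpZ.dvd_mul.1 h).elim h4 hpM2
    have h7 := good h2 h3 h4 (hpd h3)
    have h8 := good (a := a * M) h2 h5 h6 (hpd h3)
    push_cast at h8
    exact ⟨fun _ => h7, fun _ => h8⟩
  by_cases hN : Neutral a b p
  swap
  · -- the product is a square
    apply scaleM hMp
    rw [sq_int h2 hpM, hMd]
    have h3 := sq_prod (p := p) (U := U) fun q hq =>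
      ((hU q hq).2.2.2.2 p hp.out h2 hbad).resolve_left hN
    exact_mod_cast h3
  rcases hN with ⟨h3, h4, h5⟩ | ⟨h3, h4⟩
  · constructor
    · intro h
      have h6 : (p : ℤ) ∣ a * M := dvd_mul_of_dvd_left h3 _
      have h7 : (p : ℤ) ∣ b * M ^ 2 := dvd_mul_of_dvd_left h4 _
      have h8 : ¬ (p : ℤ) ^ 2 ∣ b * M ^ 2 := by
        intro h9
        apply h5
        have hco : IsCoprime ((p : ℤ) ^ 2) (M ^ 2) :=
          ((Prime.coprime_iff_not_dvd hpZ).2 hpM).pow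
        exact hco.dvd_of_dvd_mul_right h9
      have h9 := n1 h2 h6 h7 h8 (d := (d : ℚ_[p])) (by push_cast; exact h)
      refine (alt ?_).2
      rcases h9 with h9 | h9
      · exact Or.inl h9
      · right
        push_cast at h9
        have e : (b : ℚ_[p]) * (M : ℚ_[p]) ^ 2 * d = ((M : ℚ_[p]) * M) * (b * d) := by ring
        rw [e] at h9
        exact sq_of_mul (mul_ne_zero hMp hMp) ⟨_, rfl⟩ h9
    · intro h
      exact (alt (n1 h2 h3 h4 h5 h)).1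
  · -- multiplicative
    have hMv : (M : ℚ_[p]).valuation = 0 := (val_one_of hMn).2
    have hbc0 : b * (a ^ 2 - 4 * b) ≠ 0 := mul_ne_zero hb hc
    have hval : padicValInt p (b * (a ^ 2 - 4 * b)) = padicValInt p b +
        padicValInt p (a ^ 2 - 4 * b) := padicValInt.mul hb hc
    rcases hpZ.dvd_mul.1 hbad with h5 | h5
    · -- the full image
      have h6 : ¬ (p : ℤ) ∣ a ^ 2 - 4 * b := by
        intro h
        apply h3
        have h7 : (p : ℤ) ∣ a ^ 2 := by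
          have := dvd_add h (dvd_mul_of_dvd_right h5 4)
          rwa [sub_add_cancel] at this
        exact hpZ.dvd_of_dvd_pow h7
      rw [hval, padicValInt.eq_zero_of_not_dvd h6, add_zero] at h4
      have h7 : Odd (b : ℚ_[p]).valuation := by
        rw [Padic.valuation_intCast]
        exact_mod_cast h4
      have h8 : ‖(b : ℚ_[p])‖ < 1 := Padic.norm_intCast_lt_one_iff.2 h5
      have h9 := n2' h2 h3 hbp h8 h7 hdp
      have h10 : ¬ (p : ℤ) ∣ a * M := fun h => (hpZ.dvd_mul.1 h).elim h3 hpM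
      have h11 := n2' (b := (b : ℚ_[p]) * (M : ℚ_[p]) ^ 2) h2 h10
        (mul_ne_zero hbp (pow_ne_zero 2 hMp))
        (by rw [norm_mul, norm_pow, hMn, one_pow, mul_one]; exact h8)
        (by
          rw [Padic.valuation_mul hbp (pow_ne_zero 2 hMp), Padic.valuation_pow, hMv]
          simpa using h7) hdp
      push_cast at h11
      exact ⟨fun _ => h9, fun _ => h11⟩
    · -- the trivial image
      have h6 : ¬ (p : ℤ) ∣ b := by
        intro h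
        apply h3
        have h7 : (p : ℤ) ∣ a ^ 2 := by
          have := dvd_add h5 (dvd_mul_of_dvd_right h 4)
          rwa [sub_add_cancel] at this
        exact hpZ.dvd_of_dvd_pow h7
      rw [hval, padicValInt.eq_zero_of_not_dvd h6, zero_add] at h4
      have h7 : Odd ((a ^ 2 - 4 * b : ℤ) : ℚ_[p]).valuation := by
        rw [Padic.valuation_intCast]
        exact_mod_cast h4
      have h8 : ‖((a ^ 2 - 4 * b : ℤ) : ℚ_[p])‖ < 1 := Padic.norm_intCast_lt_one_iff.2 h5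
      constructor
      · intro h
        have h9 := n2 (a := (a : ℚ_[p]) * M) (b := (b : ℚ_[p]) * (M : ℚ_[p]) ^ 2)
          (c := ((a ^ 2 - 4 * b : ℤ) : ℚ_[p]) * (M : ℚ_[p]) ^ 2) h2
          (by rw [norm_mul, norm_int h3, hMn, one_mul]) (by push_cast; ring)
          (mul_ne_zero hcp (pow_ne_zero 2 hMp))
          (by rw [norm_mul, norm_pow, hMn, one_pow, mul_one]; exact h8)
          (by
            rw [Padic.valuation_mul hcp (pow_ne_zero 2 hMp), Padic.valuation_pow, hMv]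
            simpa using h7) h
        exact Or.inl h9
      · intro h
        have h9 := n2 (a := (a : ℚ_[p])) (b := (b : ℚ_[p]))
          (c := ((a ^ 2 - 4 * b : ℤ) : ℚ_[p])) h2 (norm_int h3) (by push_cast; ring) hcp h8 h7 h
        exact Or.inl h9

lemma dvd_one (hU : ∀ q ∈ U, Tw a b q) {d : ℤ} (hd : Squarefree d) (p : ℕ) [hp : Fact p.Prime]
    (hb : ¬ (p : ℤ) ∣ b)
    (h : LocA ℚ_[p] ((a : ℚ_[p]) * (((∏ q ∈ U, q : ℕ) : ℤ) : ℚ_[p]))
      ((b : ℚ_[p]) * (((∏ q ∈ U, q : ℕ) : ℤ) : ℚ_[p]) ^ 2) (d : ℚ_[p])) : ¬ (p : ℤ) ∣ d := by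
  have hUp : ∀ q ∈ U, q.Prime := fun q hq => (hU q hq).1
  have hpos : 0 < ∏ q ∈ U, q := Finset.prod_pos fun q hq => (hUp q hq).pos
  refine Pool.Agent.Y695.locA_dvd a b ((∏ q ∈ U, q : ℕ) : ℤ) d (by exact_mod_cast hpos.ne') hd hb
    (fun h1 => ?_) h
  have hpU : p ∈ U := by
    by_contra hcon
    exact prod_not_dvd hUp hp.out hcon h1
  obtain ⟨-, h2, -, h3, -⟩ := hU p hpU
  exact no_root (by rintro rfl; omega) h3

/-- **invariance of the set of the classes** -/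
theorem inv (hb : b ≠ 0) (hc : a ^ 2 - 4 * b ≠ 0) (hU : ∀ q ∈ U, Tw a b q) :
    Sel (a * ((∏ q ∈ U, q : ℕ) : ℤ)) (b * ((∏ q ∈ U, q : ℕ) : ℤ) ^ 2) = Sel a b := by
  have hUp : ∀ q ∈ U, q.Prime := fun q hq => (hU q hq).1
  have hpos : 0 < ∏ q ∈ U, q := Finset.prod_pos fun q hq => (hUp q hq).pos
  have hR : ∀ d : ℝ, LocA ℝ ((a : ℝ) * ((∏ q ∈ U, q : ℕ) : ℝ))
      ((b : ℝ) * ((∏ q ∈ U, q : ℕ) : ℝ) ^ 2) d ↔ LocA ℝ (a : ℝ) (b : ℝ) d := by
    intro d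
    have h1 : (0 : ℝ) < ((∏ q ∈ U, q : ℕ) : ℝ) := by exact_mod_cast hpos
    exact scaleM h1.ne' ⟨Real.sqrt _, (Real.mul_self_sqrt h1.le).symm⟩
  ext d
  unfold Sel
  simp only [Set.mem_setOf_eq]
  constructor
  · rintro ⟨h1, h2, h3⟩
    push_cast at h2
    refine ⟨h1, (hR d).1 (by push_cast; exact h2), fun p _ => ?_⟩
    have h4 := h3 p
    have h5 : LocA ℚ_[p] ((a : ℚ_[p]) * (((∏ q ∈ U, q : ℕ) : ℤ) : ℚ_[p]))
      ((b : ℚ_[p]) * (((∏ q ∈ U, q : ℕ) : ℤ) : ℚ_[p]) ^ 2) (d : ℚ_[p]) := by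
      push_cast at h4
      push_cast
      exact h4
    exact (place hb hc hU h1.ne_zero p fun h6 => dvd_one hU h1 p h6 h5).1 h5
  · rintro ⟨h1, h2, h3⟩
    refine ⟨h1, ?_, fun p _ => ?_⟩
    · have := (hR d).2 h2
      push_cast at this
      push_cast
      exact this
    · have h4 := h3 p
      have h5 : ¬ (p : ℤ) ∣ b → ¬ (p : ℤ) ∣ d := fun h6 =>
        dvd_one (a := a) (b := b) (U := ∅) (fun q hq => by simp at hq) h1 p h6 (by
          simpa using h4)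
      have h7 := (place hb hc hU h1.ne_zero p h5).2 h4
      push_cast at h7
      push_cast
      exact h7

end

end Pool.Agent.U80.NP
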