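import Pool.Agent.U80.NP.Sq

/-!
# The local images at the neutral primes and at the good primes
-/

set_option autoImplicit false

namespace Pool.Agent.U80.NP

open Pool.Agent.Y695 (LocA)

lemma comb {K : Type} [Field K] {X Y c s d : K} (hX : X ≠ 0) (hs : s ≠ 0)
    (hY : Y ^ 2 = X * (c * (s * s))) (hd : IsSquare (X * d)) : IsSquare (c * d) := by
  obtain ⟨r, hr⟩ := hd
  refine ⟨Y * r / (s * X), ?_⟩
  field_simp
  have : Y ^ 2 * r ^ 2 = X * (c * (s * s)) * (X * d) := by rw [hY, hr]; ring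
  linear_combination -this

variable {p : ℕ} [hp : Fact p.Prime]

lemma p_inv : 0 < (p : ℝ)⁻¹ ∧ (p : ℝ)⁻¹ < 1 := by
  have h1 : (1 : ℝ) < p := by exact_mod_cast hp.out.one_lt
  exact ⟨by positivity, inv_lt_one_of_one_lt₀ h1⟩

lemma norm_le_inv {x : ℚ_[p]} (h : ‖x‖ < 1) : ‖x‖ ≤ (p : ℝ)⁻¹ := by
  have h1 := (Padic.norm_lt_pow_iff_norm_le_pow_sub_one x 0).1 (by simpa using h)
  simpa using h1

lemma norm_of_exact {b : ℤ} (hb : (p : ℤ) ∣ b) (hb2 : ¬ (p : ℤ) ^ 2 ∣ b) :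
    ‖(b : ℚ_[p])‖ = (p : ℝ)⁻¹ := by
  have h1 := norm_le_inv (Padic.norm_intCast_lt_one_iff.2 hb)
  refine le_antisymm h1 ?_
  by_contra h
  push Not at h
  apply hb2
  have h3 := (Padic.norm_int_le_pow_iff_dvd (p := p) b 2).1 (by
    have h4 := (Padic.norm_lt_pow_iff_norm_le_pow_sub_one (b : ℚ_[p]) (-1)).1 (by
      rw [zpow_neg_one]; exact h)
    have e : (-1 : ℤ) - 1 = -((2 : ℕ) : ℤ) := by norm_num
    rw [e] at h4
    exact h4)
  exact_mod_cast h3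

/-- neutral primes of the first kind: `p ∣ a`, `p ∥ b` -/
lemma n1 (h2 : p ≠ 2) {a b : ℤ} (ha : (p : ℤ) ∣ a) (hb : (p : ℤ) ∣ b) (hb2 : ¬ (p : ℤ) ^ 2 ∣ b)
    {d : ℚ_[p]} (h : LocA ℚ_[p] (a : ℚ_[p]) (b : ℚ_[p]) d) :
    IsSquare d ∨ IsSquare ((b : ℚ_[p]) * d) := by
  obtain ⟨hp0, hp1⟩ := p_inv (p := p)
  have hna := norm_le_inv (Padic.norm_intCast_lt_one_iff.2 ha)
  have hnb := norm_of_exact hb hb2
  rcases h with h | h | ⟨X, Y, hX, hY, hs⟩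
  · exact Or.inl h
  · exact Or.inr h
  rcases lt_or_ge ‖X‖ 1 with hX1 | hX1
  · right
    have hX2 := norm_le_inv hX1
    have h3 : ‖(X ^ 2 + (a : ℚ_[p]) * X + b) - b‖ < ‖(b : ℚ_[p])‖ := by
      rw [add_sub_cancel_right, hnb]
      have h4 : ‖X ^ 2 + (a : ℚ_[p]) * X‖ ≤ max ‖X ^ 2‖ ‖(a : ℚ_[p]) * X‖ :=
        Padic.nonarchimedean _ _
      have h5 : ‖X ^ 2‖ ≤ (p : ℝ)⁻¹ * (p : ℝ)⁻¹ := by
        rw [norm_pow, pow_two]
        exact mul_le_mul hX2 hX2 (norm_nonneg _) hp0.le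
      have h6 : ‖(a : ℚ_[p]) * X‖ ≤ (p : ℝ)⁻¹ * (p : ℝ)⁻¹ := by
        rw [norm_mul]
        exact mul_le_mul hna hX2 (norm_nonneg _) hp0.le
      have h7 := h4.trans (max_le h5 h6)
      nlinarith
    obtain ⟨-, s, hs0, he⟩ := near_eq h2 h3
    rw [he] at hY
    exact comb hX hs0 hY hs
  · left
    have hXpos : 0 < ‖X‖ := lt_of_lt_of_le one_pos hX1
    have h3 : ‖(X ^ 2 + (a : ℚ_[p]) * X + b) - X ^ 2‖ < ‖X ^ 2‖ := by
      have e : X ^ 2 + (a : ℚ_[p]) * X + b - X ^ 2 = (a : ℚ_[p]) * X + b := by ring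
      rw [e]
      have h4 : ‖(a : ℚ_[p]) * X + b‖ ≤ max ‖(a : ℚ_[p]) * X‖ ‖(b : ℚ_[p])‖ :=
        Padic.nonarchimedean _ _
      have h6 : ‖(a : ℚ_[p]) * X‖ ≤ (p : ℝ)⁻¹ * ‖X‖ := by
        rw [norm_mul]
        exact mul_le_mul_of_nonneg_right hna (norm_nonneg _)
      have h7 : ‖(b : ℚ_[p])‖ ≤ (p : ℝ)⁻¹ * ‖X‖ := by
        rw [hnb]
        nlinarith
      have h8 := h4.trans (max_le h6 h7)
      rw [norm_pow]
      nlinarith
    obtain ⟨-, s, hs0, he⟩ := near_eq h2 h3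
    have e2 : X ^ 2 * (s * s) = 1 * ((X * s) * (X * s)) := by ring
    rw [he, e2] at hY
    have h9 := comb hX (mul_ne_zero hX hs0) hY hs
    rwa [one_mul] at h9

lemma val_two (h2 : p ≠ 2) : ((2 : ℚ_[p])).valuation = 0 ∧ (2 : ℚ_[p]) ≠ 0 := by
  have h1 : ‖((2 : ℤ) : ℚ_[p])‖ = 1 := norm_int (not_dvd_two h2)
  have h3 : ((2 : ℤ) : ℚ_[p]) = 2 := by push_cast; rfl
  rw [h3] at h1
  have h4 : (2 : ℚ_[p]) ≠ 0 := two_ne_zero
  refine ⟨?_, h4⟩
  rw [Pool.Agent.Y695.val_of_norm h4 one_ne_zero (by rw [h1, norm_one]), Padic.valuation_one]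

lemma norm_two (h2 : p ≠ 2) : ‖(2 : ℚ_[p])‖ = 1 := by
  have h1 : ‖((2 : ℤ) : ℚ_[p])‖ = 1 := norm_int (not_dvd_two h2)
  have h3 : ((2 : ℤ) : ℚ_[p]) = 2 := by push_cast; rfl
  rwa [h3] at h1

lemma val_one_of {x : ℚ_[p]} (h : ‖x‖ = 1) : x ≠ 0 ∧ x.valuation = 0 := by
  have h0 : x ≠ 0 := by
    rintro rfl
    rw [norm_zero] at h
    norm_num at h
  exact ⟨h0, by rw [Pool.Agent.Y695.val_of_norm h0 one_ne_zero (by rw [h, norm_one]),
    Padic.valuation_one]⟩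

/-- neutral primes of the second kind: `p ∤ a`, `a² - 4 b` of odd valuation -/
lemma n2 (h2 : p ≠ 2) {a b c : ℚ_[p]} (ha : ‖a‖ = 1) (hc : c = a ^ 2 - 4 * b) (hc0 : c ≠ 0)
    (hc1 : ‖c‖ < 1) (hv : Odd c.valuation) {d : ℚ_[p]} (h : LocA ℚ_[p] a b d) : IsSquare d := by
  have h2n := norm_two h2
  have h20 : (2 : ℚ_[p]) ≠ 0 := two_ne_zero
  have h3 : ‖4 * b - a ^ 2‖ < ‖a ^ 2‖ := by
    rw [norm_pow, ha, one_pow]
    have e : 4 * b - a ^ 2 = -c := by rw [hc]; ring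
    rw [e, norm_neg]
    exact hc1
  obtain ⟨ha2, s, hs0, he⟩ := near_eq h2 h3
  have ha0 : a ≠ 0 := fun h0 => ha2 (by rw [h0]; ring)
  have hbe : b = (a * s / 2) * (a * s / 2) := by
    field_simp
    linear_combination he
  have hb0 : b ≠ 0 := by
    rw [hbe]
    exact mul_ne_zero (div_ne_zero (mul_ne_zero ha0 hs0) h20)
      (div_ne_zero (mul_ne_zero ha0 hs0) h20)
  rcases h with h | h | ⟨X, Y, hX, hY, hs⟩
  · exact h
  · exact sq_of_mul hb0 ⟨_, hbe⟩ h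
  have key : (2 * X + a) ^ 2 - c = 4 * (X ^ 2 + a * X + b) := by rw [hc]; ring
  rcases lt_trichotomy ‖(2 * X + a) ^ 2‖ ‖c‖ with h4 | h4 | h4
  · exfalso
    have h5 : ‖((2 * X + a) ^ 2 - c) - (-c)‖ < ‖-c‖ := by
      rw [norm_neg]
      have e : (2 * X + a) ^ 2 - c - -c = (2 * X + a) ^ 2 := by ring
      rw [e]
      exact h4
    obtain ⟨-, t, ht0, h6⟩ := near_eq h2 h5
    have hZ : ‖2 * X + a‖ < 1 := by
      rw [norm_pow] at h4
      by_contra hcon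
      push Not at hcon
      nlinarith
    have hX1 : ‖X‖ = 1 := by
      have e : 2 * X = (2 * X + a) + -a := by ring
      have h7 : ‖2 * X‖ = 1 := by
        rw [e, Padic.add_eq_max_of_ne (by rw [norm_neg, ha]; exact hZ.ne), norm_neg, ha]
        exact max_eq_right hZ.le
      rwa [norm_mul, h2n, one_mul] at h7
    obtain ⟨-, hvX⟩ := val_one_of hX1
    have e2 : (2 * Y) ^ 2 = X * (-c * (t * t)) := by
      rw [mul_pow, hY, ← h6, key]
      ring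
    have h8 := Pool.Agent.Y695.even_of_sq' (mul_ne_zero hX
      (mul_ne_zero (neg_ne_zero.2 hc0) (mul_ne_zero ht0 ht0))) e2
    have hvc : (-c).valuation = c.valuation :=
      Pool.Agent.Y695.val_of_norm (neg_ne_zero.2 hc0) hc0 (norm_neg c)
    rw [Padic.valuation_mul hX (mul_ne_zero (neg_ne_zero.2 hc0) (mul_ne_zero ht0 ht0)),
      Padic.valuation_mul (neg_ne_zero.2 hc0) (mul_ne_zero ht0 ht0),
      Padic.valuation_mul ht0 ht0, hvX, hvc] at h8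
    rw [Int.even_iff] at h8
    rw [Int.odd_iff] at hv
    omega
  · exfalso
    have hZ0 : (2 * X + a) ^ 2 ≠ 0 := by
      intro h0
      rw [h0, norm_zero] at h4
      exact hc0 (norm_eq_zero.1 h4.symm)
    have h5 := Pool.Agent.Y695.val_of_norm hZ0 hc0 h4
    have h6 := Pool.Agent.Y695.even_of_sq hZ0 ⟨2 * X + a, pow_two _⟩
    rw [h5] at h6
    exact (Int.not_even_iff_odd.2 hv) h6
  · have h5 : ‖((2 * X + a) ^ 2 - c) - (2 * X + a) ^ 2‖ < ‖(2 * X + a) ^ 2‖ := by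
      have e : (2 * X + a) ^ 2 - c - (2 * X + a) ^ 2 = -c := by ring
      rw [e, norm_neg]
      exact h4
    obtain ⟨hZ0, t, ht0, h6⟩ := near_eq h2 h5
    have hZ : 2 * X + a ≠ 0 := fun h0 => hZ0 (by rw [h0]; ring)
    have e2 : Y ^ 2 = X * (1 * (((2 * X + a) * t / 2) * ((2 * X + a) * t / 2))) := by
      rw [hY]
      have : X ^ 2 + a * X + b = ((2 * X + a) * t / 2) * ((2 * X + a) * t / 2) := by
        field_simp
        linear_combination h6 - key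
      rw [this, one_mul]
    have h9 := comb hX (div_ne_zero (mul_ne_zero hZ ht0) h20) e2 hs
    rwa [one_mul] at h9

end Pool.Agent.U80.NP
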