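import Pool.Agent.Y695.Loc
import Pool.Agent.Y587.SG.LG

/-!
# Squares in `ℚ_p` and the values of `x` at the points of `y² = x³ + a x² + b x`
-/

set_option autoImplicit false

namespace Pool.Agent.U80.NP

open Pool.Agent.Y695 (LocA)

section general

variable {K : Type} [Field K]

lemma sq_of_mul {x y : K} (hx : x ≠ 0) (h1 : IsSquare x) (h2 : IsSquare (x * y)) : IsSquare y := by
  obtain ⟨r, hr⟩ := h1
  obtain ⟨s, hs⟩ := h2
  have hr0 : r ≠ 0 := by
    rintro rfl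
    exact hx (by rw [hr]; ring)
  refine ⟨s / r, ?_⟩
  have : r * r * y = s * s := by rw [← hr, hs]
  field_simp
  linear_combination this

lemma scale1 {a b d u : K} (hu : u ≠ 0) (h : LocA K a b d) : LocA K (a * u ^ 2) (b * u ^ 4) d := by
  rcases h with h | h | ⟨X, Y, hX, hY, hs⟩
  · exact Or.inl h
  · right; left
    obtain ⟨s, hs⟩ := h
    exact ⟨u ^ 2 * s, by linear_combination u ^ 4 * hs⟩
  · right; right
    refine ⟨X * u ^ 2, Y * u ^ 3, mul_ne_zero hX (pow_ne_zero 2 hu), ?_, ?_⟩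
    · rw [mul_pow, hY]; ring
    · obtain ⟨s, hs⟩ := hs
      exact ⟨u * s, by linear_combination u ^ 2 * hs⟩

lemma scale {a b d u : K} (hu : u ≠ 0) : LocA K (a * u ^ 2) (b * u ^ 4) d ↔ LocA K a b d := by
  refine ⟨fun h => ?_, scale1 hu⟩
  have h1 := scale1 (inv_ne_zero hu) h
  have e1 : a * u ^ 2 * u⁻¹ ^ 2 = a := by field_simp
  have e2 : b * u ^ 4 * u⁻¹ ^ 4 = b := by field_simp
  rwa [e1, e2] at h1

lemma scaleM {a b d M : K} (hM : M ≠ 0) (hs : IsSquare M) :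
    LocA K (a * M) (b * M ^ 2) d ↔ LocA K a b d := by
  obtain ⟨u, rfl⟩ := hs
  have hu : u ≠ 0 := left_ne_zero_of_mul hM
  have e1 : a * (u * u) = a * u ^ 2 := by ring
  have e2 : b * (u * u) ^ 2 = b * u ^ 4 := by ring
  rw [e1, e2, scale hu]

/-- adding the point of order two -/
lemma add_two {a b d : K} (hb : b ≠ 0) (h : LocA K a b d) : LocA K a b (b * d) := by
  rcases h with h | h | ⟨X, Y, hX, hY, hs⟩
  · right; left
    obtain ⟨s, hs⟩ := h
    exact ⟨b * s, by rw [hs]; ring⟩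
  · exact Or.inl h
  · right; right
    refine ⟨b / X, b * Y / X ^ 2, div_ne_zero hb hX, ?_, ?_⟩
    · rw [div_pow, mul_pow, hY]
      field_simp
      ring
    · obtain ⟨s, hs⟩ := hs
      refine ⟨b * s / X, ?_⟩
      field_simp
      linear_combination hs

end general

section padic

variable {p : ℕ} [hp : Fact p.Prime]

lemma norm_int {d : ℤ} (hd : ¬ (p : ℤ) ∣ d) : ‖(d : ℚ_[p])‖ = 1 := by
  have h1 := Pool.Agent.Y695.norm_unit_of_zmod (p := p) (d : ℤ_[p]) (by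
    rw [map_intCast]
    intro h2
    exact hd ((ZMod.intCast_zmod_eq_zero_iff_dvd _ _).1 h2))
  push_cast at h1
  exact h1

lemma not_dvd_two (h2 : p ≠ 2) : ¬ (p : ℤ) ∣ 2 := by
  intro h
  have h1 : p ∣ 2 := by exact_mod_cast h
  exact h2 ((Nat.prime_dvd_prime_iff_eq hp.out Nat.prime_two).1 h1)

lemma not_dvd_four (h2 : p ≠ 2) : ¬ (p : ℤ) ∣ 4 := by
  intro h
  have h1 : (p : ℤ) ∣ 2 * 2 := by norm_num; exact h
  rcases (Nat.prime_iff_prime_int.1 hp.out).dvd_mul.1 h1 with h | h <;> exact not_dvd_two h2 h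

lemma sq_one_add (h2 : p ≠ 2) {t : ℚ_[p]} (ht : ‖t‖ < 1) : IsSquare (1 + t) := by
  set z : ℤ_[p] := ⟨t, ht.le⟩ with hz
  have h1 : ((p : ℕ) : ℤ_[p]) ∣ z := PadicInt.norm_lt_one_iff_dvd z |>.1 ht
  obtain ⟨u, hu⟩ := h1
  have h4 : ‖((4 : ℤ) : ℚ_[p])‖ = 1 := norm_int (not_dvd_four h2)
  have h4' : IsUnit (4 : ℤ_[p]) := by
    rw [PadicInt.isUnit_iff]
    have : ‖(4 : ℤ_[p])‖ = ‖((4 : ℤ) : ℚ_[p])‖ := by
      have e : (((4 : ℤ_[p])) : ℚ_[p]) = ((4 : ℤ) : ℚ_[p]) := by push_cast; rfl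
      rw [← e]
      rfl
    rw [this, h4]
  obtain ⟨v, hv⟩ := h4'.exists_right_inv
  have h5 := Pool.Agent.Y587.SG.hens p (v * u)
  have e1 : (1 : ℤ_[p]) + 4 * p * (v * u) = 1 + z := by
    rw [hu]
    linear_combination (p : ℤ_[p]) * u * hv
  rw [e1] at h5
  obtain ⟨s, hs⟩ := h5
  refine ⟨s, ?_⟩
  have := congrArg (fun w : ℤ_[p] => (w : ℚ_[p])) hs
  push_cast at this
  exact this

lemma near_eq (h2 : p ≠ 2) {x c : ℚ_[p]} (h : ‖x - c‖ < ‖c‖) :
    c ≠ 0 ∧ ∃ s : ℚ_[p], s ≠ 0 ∧ x = c * (s * s) := by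
  have hc : c ≠ 0 := by
    rintro rfl
    rw [norm_zero] at h
    exact absurd h (not_lt.2 (norm_nonneg _))
  have ht : ‖(x - c) / c‖ < 1 := by
    rw [norm_div, div_lt_one (norm_pos_iff.2 hc)]
    exact h
  obtain ⟨s, hs⟩ := sq_one_add h2 ht
  refine ⟨hc, s, ?_, ?_⟩
  · rintro rfl
    have h1 : (x - c) / c = -1 := by linear_combination hs
    rw [h1, norm_neg, norm_one] at ht
    exact lt_irrefl _ ht
  · rw [← hs]
    field_simp
    ring

lemma near (h2 : p ≠ 2) {x c : ℚ_[p]} (h : ‖x - c‖ < ‖c‖) : IsSquare x ↔ IsSquare c := by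
  obtain ⟨hc, s, hs0, hx⟩ := near_eq h2 h
  constructor
  · intro h1
    rw [hx, mul_comm] at h1
    exact sq_of_mul (mul_ne_zero hs0 hs0) ⟨s, rfl⟩ h1
  · rintro ⟨r, rfl⟩
    exact ⟨r * s, by rw [hx]; ring⟩

lemma sq_int (h2 : p ≠ 2) {d : ℤ} (hd : ¬ (p : ℤ) ∣ d) :
    IsSquare (d : ℚ_[p]) ↔ IsSquare (d : ZMod p) := by
  have hdn := norm_int hd
  constructor
  · rintro ⟨z, hz⟩
    have h1 : ‖z‖ ≤ 1 := by
      rw [hz, norm_mul] at hdn
      nlinarith [norm_nonneg z]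
    set w : ℤ_[p] := ⟨z, h1⟩ with hw
    have h3 : (d : ℤ_[p]) = w * w := by
      apply Subtype.ext
      push_cast
      exact hz
    refine ⟨PadicInt.toZMod w, ?_⟩
    rw [← map_mul, ← h3, map_intCast]
  · rintro ⟨y, hy⟩
    obtain ⟨n, rfl⟩ := ZMod.intCast_surjective y
    have h1 : (p : ℤ) ∣ d - n * n := by
      rw [← ZMod.intCast_zmod_eq_zero_iff_dvd]
      push_cast
      rw [hy, sub_self]
    have hn : ¬ (p : ℤ) ∣ n := by
      intro h
      apply hd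
      have h3 : (p : ℤ) ∣ n * n := dvd_mul_of_dvd_left h n
      have := dvd_add h1 h3
      rwa [sub_add_cancel] at this
    have h3 : ‖(d : ℚ_[p]) - (n : ℚ_[p]) * n‖ < ‖(n : ℚ_[p]) * n‖ := by
      have e : (d : ℚ_[p]) - (n : ℚ_[p]) * n = ((d - n * n : ℤ) : ℚ_[p]) := by push_cast; ring
      rw [e, norm_mul, norm_int hn, one_mul]
      exact (Padic.norm_intCast_lt_one_iff).2 h1
    exact (near h2 h3).2 ⟨n, rfl⟩

lemma zsq_mul {b d : ZMod p} (hd : d ≠ 0) (hb : ¬ IsSquare b) (h : ¬ IsSquare d) :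
    IsSquare (b * d) := by
  have hb0 : b ≠ 0 := by
    rintro rfl
    exact hb ⟨0, by ring⟩
  have h1 := (quadraticChar_neg_one_iff_not_isSquare).2 hb
  have h3 := (quadraticChar_neg_one_iff_not_isSquare).2 h
  rw [← quadraticChar_one_iff_isSquare (mul_ne_zero hb0 hd), map_mul, h1, h3]
  norm_num

/-- two nonsquare units have a square as product -/
lemma sq_or (h2 : p ≠ 2) {b d : ℤ} (hb : ¬ IsSquare (b : ZMod p)) (hd : ¬ (p : ℤ) ∣ d) :
    IsSquare (d : ℚ_[p]) ∨ IsSquare ((b : ℚ_[p]) * d) := by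
  have hbd : ¬ (p : ℤ) ∣ b := by
    intro h
    apply hb
    rw [(ZMod.intCast_zmod_eq_zero_iff_dvd _ _).2 h]
    exact ⟨0, by ring⟩
  have hd0 : (d : ZMod p) ≠ 0 := fun h => hd ((ZMod.intCast_zmod_eq_zero_iff_dvd _ _).1 h)
  by_cases h : IsSquare (d : ZMod p)
  · exact Or.inl ((sq_int h2 hd).2 h)
  · right
    have h1 : ¬ (p : ℤ) ∣ b * d := by
      intro h3
      rcases (Nat.prime_iff_prime_int.1 hp.out).dvd_mul.1 h3 with h4 | h4
      · exact hbd h4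
      · exact hd h4
    have h3 := (sq_int h2 h1).2 (by push_cast; exact zsq_mul hd0 hb h)
    push_cast at h3
    exact h3

end padic

end Pool.Agent.U80.NP
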